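import Mathlib
import Pool.Agent.W437.HD.Fixed
import Pool.Agent.Helper475.ExistsRingequivPow

/-!
# Automorphisms of the field of complex numbers
-/

set_option autoImplicit false

namespace Pool.Agent.H56P

open Polynomial

/-- transcendental numbers are conjugate under the automorphisms of `ℂ` -/
theorem exists_aut_transc {y z : ℂ} (hy : Transcendental ℚ y) (hz : Transcendental ℚ z) :
    ∃ s : ℂ ≃+* ℂ, s y = z := by
  have hcard : Cardinal.mk (FractionRing ℚ[X]) ≤ Cardinal.aleph0 := by
    have : Countable (FractionRing ℚ[X]) := by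
      have h1 : Countable ℚ[X] := by
        have h0 : Cardinal.mk ℚ[X] ≤ max (Cardinal.mk ℚ) Cardinal.aleph0 :=
          Polynomial.cardinalMk_le_max
        rw [Cardinal.mkRat, max_self] at h0
        exact Cardinal.mk_le_aleph0_iff.1 h0
      exact (IsLocalization.mk'_surjective (nonZeroDivisors ℚ[X]) (S := FractionRing ℚ[X])
        |> fun h => Function.Surjective.countable (f := fun p : ℚ[X] × nonZeroDivisors ℚ[X] =>
          IsLocalization.mk' (FractionRing ℚ[X]) p.1 p.2) (by
            intro x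
            obtain ⟨⟨a, b⟩, h2⟩ := h x
            exact ⟨(a, b), h2⟩))
    exact Cardinal.mk_le_aleph0_iff.2 this
  have hinj : ∀ {w : ℂ}, Transcendental ℚ w → Function.Injective (aeval w : ℚ[X] →ₐ[ℚ] ℂ) :=
    fun h => transcendental_iff_injective.1 h
  let f : FractionRing ℚ[X] →+* ℂ :=
    IsFractionRing.lift (g := (aeval y : ℚ[X] →ₐ[ℚ] ℂ).toRingHom) (hinj hy)
  let g : FractionRing ℚ[X] →+* ℂ :=
    IsFractionRing.lift (g := (aeval z : ℚ[X] →ₐ[ℚ] ℂ).toRingHom) (hinj hz)
  obtain ⟨s, hs⟩ := H475.exists_ringEquiv_pow_aux2 hcard f g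
  refine ⟨s, ?_⟩
  have h1 := hs (algebraMap ℚ[X] _ X)
  have h2 : f (algebraMap ℚ[X] _ X) = y := by
    change IsFractionRing.lift _ _ = _
    rw [IsFractionRing.lift_algebraMap]
    simp
  have h3 : g (algebraMap ℚ[X] _ X) = z := by
    change IsFractionRing.lift _ _ = _
    rw [IsFractionRing.lift_algebraMap]
    simp
  rw [h2, h3] at h1
  exact h1

/-- every number is a quotient of two conjugates of a transcendental number -/
theorem exists_quot {τ c : ℂ} (hτ : Transcendental ℚ τ) (hc : c ≠ 0) :
    ∃ s₁ s₂ : ℂ ≃+* ℂ, s₁ τ = c * s₂ τ := by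
  obtain ⟨y, hy, hcy⟩ : ∃ y : ℂ, Transcendental ℚ y ∧ Transcendental ℚ (c * y) := by
    by_cases h : IsAlgebraic ℚ c
    · refine ⟨τ, hτ, fun h1 => hτ ?_⟩
      have h2 : IsAlgebraic ℚ (c⁻¹ * (c * τ)) := h.inv.mul h1
      rwa [inv_mul_cancel_left₀ hc] at h2
    · refine ⟨c, h, fun h1 => h ?_⟩
      have h2 : IsAlgebraic ℚ (c ^ 2) := by rwa [sq]
      exact IsAlgebraic.of_pow (by norm_num) h2
  obtain ⟨s₁, h1⟩ := exists_aut_transc hτ hcy
  obtain ⟨s₂, h2⟩ := exists_aut_transc hτ hy
  exact ⟨s₁, s₂, by rw [h1, h2]⟩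

/-- fixed by all automorphisms: rational -/
theorem rat_of_fixed {z : ℂ} (h : ∀ s : ℂ ≃+* ℂ, s z = z) : ∃ q : ℚ, z = q := by
  by_contra hcon
  push Not at hcon
  obtain ⟨s, hs⟩ := Pool.Agent.W437.HD.exists_move hcon
  exact hs (h s)

/-- a proper subspace stable under all automorphisms is annihilated by a rational form -/
theorem exists_form {B : Type*} [Fintype B] (C : Submodule ℂ (B → ℂ))
    (hC : ∀ (s : ℂ ≃+* ℂ), ∀ v ∈ C, (fun i => s (v i)) ∈ C) (hne : C ≠ ⊤) :
    ∃ r : B → ℚ, r ≠ 0 ∧ ∀ v ∈ C, ∑ i, (r i : ℂ) * v i = 0 := by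
  classical
  have h1 := Pool.Agent.W437.HD.span_rational C hC
  -- the rational vectors in `C`
  let R : Submodule ℚ (B → ℚ) :=
    { carrier := {u | (fun i => (u i : ℂ)) ∈ C}
      add_mem' := by
        intro a b ha hb
        have h := C.add_mem ha hb
        simp only [Set.mem_ofPred_eq] at *
        convert h using 1
        funext i
        simp
      zero_mem' := by
        simp only [Set.mem_setOf_eq]
        convert C.zero_mem using 1
        funext i
        simp
      smul_mem' := by
        intro c a ha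
        have h := C.smul_mem (c : ℂ) ha
        simp only [Set.mem_ofPred_eq] at *
        convert h using 1
        funext i
        simp }
  have hR : R ≠ ⊤ := by
    intro h
    apply hne
    rw [eq_top_iff]
    intro v _
    have h2 : v = ∑ i, v i • (Pi.single i (1 : ℂ) : B → ℂ) := by
      funext j
      simp [Finset.sum_apply, Pi.single_apply]
    rw [h2]
    refine C.sum_mem fun i _ => C.smul_mem _ ?_
    have h3 : (Pi.single i (1 : ℚ) : B → ℚ) ∈ R := by rw [h]; trivial
    have h4 : (fun j => ((Pi.single i (1 : ℚ) : B → ℚ) j : ℂ)) ∈ C := h3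
    convert h4 using 1
    funext j
    by_cases hij : j = i
    · subst hij
      simp
    · simp [Pi.single_apply, hij]
  obtain ⟨f, hf, hfR⟩ := Submodule.exists_le_ker_of_lt_top R (lt_top_iff_ne_top.2 hR)
  refine ⟨fun i => f (Pi.single i 1), fun h => hf ?_, ?_⟩
  · apply LinearMap.pi_ext'
    intro i
    ext
    simpa using congrFun h i
  · have hform : ∀ u : B → ℚ, f u = ∑ i, f (Pi.single i 1) * u i := by
      intro u
      have h2 : u = ∑ i, u i • (Pi.single i (1 : ℚ) : B → ℚ) := by
        funext j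
        simp [Finset.sum_apply, Pi.single_apply]
      conv_lhs => rw [h2]
      rw [map_sum]
      refine Finset.sum_congr rfl fun i _ => ?_
      rw [map_smul, smul_eq_mul, mul_comm]
    intro v hv
    rw [h1] at hv
    induction hv using Submodule.span_induction with
    | mem w hw =>
      obtain ⟨hwC, u, rfl⟩ := hw
      have hu : u ∈ R := hwC
      have h3 := hfR hu
      rw [LinearMap.mem_ker, hform] at h3
      have h4 := congrArg (fun q : ℚ => (q : ℂ)) h3
      simpa using h4
    | zero => simp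
    | add a b _ _ ha hb =>
      simp only [Pi.add_apply, mul_add, Finset.sum_add_distrib, ha, hb, add_zero]
    | smul c a _ ha =>
      simp only [Pi.smul_apply, smul_eq_mul]
      have : ∀ i, (f (Pi.single i 1) : ℂ) * (c * a i) = c * (f (Pi.single i 1) * a i) :=
        fun i => by ring
      simp only [this]
      rw [← Finset.mul_sum, ha, mul_zero]

/-- polynomials vanishing on a set stable under all automorphisms vanish where the rational ones do -/
theorem zero_of_rat {B : Type*} [Fintype B] {X : Type*} (e : X → B → ℂ) (Γ : Set X)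
    (hΓ : ∀ (s : ℂ ≃+* ℂ), ∀ g ∈ Γ, ∃ g' ∈ Γ, ∀ b, e g' b = s (e g b)) (a : X)
    (ha : ∀ u : B → ℚ, (∀ g ∈ Γ, ∑ b, (u b : ℂ) * e g b = 0) → ∑ b, (u b : ℂ) * e a b = 0)
    (v : B → ℂ) (hv : ∀ g ∈ Γ, ∑ b, v b * e g b = 0) : ∑ b, v b * e a b = 0 := by
  let C : Submodule ℂ (B → ℂ) :=
    { carrier := {v | ∀ g ∈ Γ, ∑ b, v b * e g b = 0}
      add_mem' := by
        intro p q hp hq g hg
        simp only [Pi.add_apply, add_mul, Finset.sum_add_distrib]
        rw [hp g hg, hq g hg, add_zero]
      zero_mem' := by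
        intro g _
        simp
      smul_mem' := by
        intro c p hp g hg
        simp only [Pi.smul_apply, smul_eq_mul, mul_assoc]
        rw [← Finset.mul_sum, hp g hg, mul_zero] }
  have hC : ∀ (s : ℂ ≃+* ℂ), ∀ v ∈ C, (fun i => s (v i)) ∈ C := by
    intro s v hv g hg
    obtain ⟨g', hg', h1⟩ := hΓ s.symm g hg
    have h2 := hv g' hg'
    have h3 := congrArg s h2
    rw [map_sum, map_zero] at h3
    rw [← h3]
    refine Finset.sum_congr rfl fun b _ => ?_
    rw [map_mul, h1 b, RingEquiv.apply_symm_apply]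
  have h1 := Pool.Agent.W437.HD.span_rational C hC
  have hv' : v ∈ C := hv
  rw [h1] at hv'
  induction hv' using Submodule.span_induction with
  | mem w hw =>
    obtain ⟨hwC, u, rfl⟩ := hw
    exact ha u hwC
  | zero => simp
  | add p q _ _ hp hq =>
    simp only [Pi.add_apply, add_mul, Finset.sum_add_distrib]
    rename_i h1' h2'
    have e1 : p ∈ C := by rw [h1]; exact h1'
    have e2 : q ∈ C := by rw [h1]; exact h2'
    rw [hp e1, hq e2, add_zero]
  | smul c p h1' hp =>
    simp only [Pi.smul_apply, smul_eq_mul, mul_assoc]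
    have e1 : p ∈ C := by rw [h1]; exact h1'
    rw [← Finset.mul_sum, hp e1, mul_zero]

end Pool.Agent.H56P
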