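import Mathlib

/-!
# Subgroups of nilpotent groups which are everything modulo commutators
-/

set_option autoImplicit false

open scoped commutatorElement

namespace Pool.Agent.H56P

theorem step {G : Type*} [Group G] (K L : Subgroup G) [L.Normal] (h : K ⊔ L = ⊤) :
    commutator G ≤ K ⊔ ⁅L, (⊤ : Subgroup G)⁆ := by
  have hn : (⁅L, (⊤ : Subgroup G)⁆).Normal := inferInstance
  rw [commutator_def, Subgroup.commutator_le]
  intro g _ g' _
  have hg : g ∈ K ⊔ L := by rw [h]; trivial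
  have hg' : g' ∈ K ⊔ L := by rw [h]; trivial
  rw [Subgroup.mem_sup_of_normal_right] at hg hg'
  obtain ⟨k, hk, l, hl, rfl⟩ := hg
  obtain ⟨k', hk', l', hl', rfl⟩ := hg'
  set M := ⁅L, (⊤ : Subgroup G)⁆ with hM
  let π := QuotientGroup.mk' M
  have hcen : ∀ l ∈ L, ∀ x : G, π l * π x = π x * π l := by
    intro l hl x
    have h1 : ⁅l, x⁆ ∈ M := Subgroup.commutator_mem_commutator hl trivial
    have h2 : π ⁅l, x⁆ = 1 := (QuotientGroup.eq_one_iff _).2 h1
    rw [map_commutatorElement, commutatorElement_eq_one_iff_mul_comm] at h2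
    exact h2
  have h3 : π ⁅k * l, k' * l'⁆ = π ⁅k, k'⁆ := by
    simp only [commutatorElement_def, map_mul, map_inv, mul_inv_rev]
    have e1 : π l * π k' = π k' * π l := hcen l hl k'
    have e2 : π l * π l' = π l' * π l := hcen l hl l'
    have e3 : π l' * π k = π k * π l' := hcen l' hl' k
    calc π k * π l * (π k' * π l') * ((π l)⁻¹ * (π k)⁻¹) * ((π l')⁻¹ * (π k')⁻¹)
        = π k * (π l * π k') * π l' * (π l)⁻¹ * (π k)⁻¹ * (π l')⁻¹ * (π k')⁻¹ := by group
      _ = π k * (π k' * π l) * π l' * (π l)⁻¹ * (π k)⁻¹ * (π l')⁻¹ * (π k')⁻¹ := by rw [e1]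
      _ = π k * π k' * (π l * π l') * (π l)⁻¹ * (π k)⁻¹ * (π l')⁻¹ * (π k')⁻¹ := by group
      _ = π k * π k' * (π l' * π l) * (π l)⁻¹ * (π k)⁻¹ * (π l')⁻¹ * (π k')⁻¹ := by rw [e2]
      _ = π k * π k' * (π l' * ((π k)⁻¹ * (π l')⁻¹)) * (π k')⁻¹ := by group
      _ = π k * π k' * (π k)⁻¹ * (π k')⁻¹ := by
        have e4 : (π k)⁻¹ * (π l')⁻¹ = (π l')⁻¹ * (π k)⁻¹ := by
          rw [← mul_inv_rev, ← mul_inv_rev, e3]
        rw [e4]
        group
  have h4 : ⁅k, k'⁆ ∈ K := by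
    rw [commutatorElement_def]
    exact K.mul_mem (K.mul_mem (K.mul_mem hk hk') (K.inv_mem hk)) (K.inv_mem hk')
  have h5 : (⁅k, k'⁆)⁻¹ * ⁅k * l, k' * l'⁆ ∈ M := by
    rw [← QuotientGroup.eq]
    exact h3.symm
  have h6 : ⁅k * l, k' * l'⁆ = ⁅k, k'⁆ * ((⁅k, k'⁆)⁻¹ * ⁅k * l, k' * l'⁆) := by group
  rw [h6]
  exact Subgroup.mul_mem_sup h4 h5

theorem nil_top {G : Type*} [Group G] [Group.IsNilpotent G] (K : Subgroup G)
    (h : K ⊔ commutator G = ⊤) : K = ⊤ := by
  have key : ∀ i : ℕ, K ⊔ Subgroup.lowerCentralSeries (⊤ : Subgroup G) (i + 1) = ⊤ := by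
    intro i
    induction i with
    | zero =>
      have : Subgroup.lowerCentralSeries (⊤ : Subgroup G) (0 + 1) = commutator G := by
        rfl
      rw [this, h]
    | succ i ih =>
      have h1 := step K (Subgroup.lowerCentralSeries (⊤ : Subgroup G) (i + 1)) ih
      have h2 : Subgroup.lowerCentralSeries (⊤ : Subgroup G) (i + 1) ≤ commutator G := by
        rw [← Subgroup.top_lowerCentralSeries_one]
        exact Subgroup.lowerCentralSeries_antitone _ (by omega)
      have h3 : K ⊔ Subgroup.lowerCentralSeries (⊤ : Subgroup G) (i + 1) ≤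
          K ⊔ Subgroup.lowerCentralSeries (⊤ : Subgroup G) (i + 1 + 1) :=
        sup_le le_sup_left (h2.trans h1)
      rw [ih] at h3
      exact eq_top_iff.2 h3
  obtain ⟨n, hn⟩ := Subgroup.nilpotent_iff_lowerCentralSeries.1 ‹Group.IsNilpotent G›
  have h1 := key n
  have h2 : Subgroup.lowerCentralSeries (⊤ : Subgroup G) (n + 1) = ⊥ := by
    rw [eq_bot_iff, ← hn]
    exact Subgroup.lowerCentralSeries_antitone _ (by omega)
  rw [h2, sup_bot_eq] at h1
  exact h1

end Pool.Agent.H56P
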