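import Mathlib

/-!
# Mixed Tate motives as graded representations of a free Lie algebra, and comparison isomorphisms

A Tannakian category of mixed Tate motives over `ℚ` (for example `MT(ℤ)`, `MT(ℤ[1/N])`, `MT(ℚ)`) has
the group `U ⋊ 𝔾_m`, where the graded Lie algebra of `U` is free on generators `l` of degree `n l`.
An object with a basis of its graded de Rham realization is the same as the following data: the
degree of the basis vectors (degree `k` for the weight `-2 k`), and nilpotent matrices `N l`, the
action of the generators.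
-/

set_option autoImplicit false

namespace Pool.Agent.H56P

/-- a graded representation of the free Lie algebra with generators `l` of degree `n l` -/
structure Mot {Λ : Type} (n : Λ → ℕ) (ι : Type) where
  /-- the degree of the basis vectors -/
  deg : ι → ℤ
  /-- the action of the generators -/
  N : Λ → Matrix ι ι ℚ
  raises : ∀ l i j, N l i j ≠ 0 → deg i = deg j + n l
  finite : {l | N l ≠ 0}.Finite

variable {Λ : Type} {n : Λ → ℕ} {ι κ : Type}

/-- a rational matrix as a complex matrix -/
def cx (F : Matrix κ ι ℚ) : Matrix κ ι ℂ := F.map fun q => (q : ℂ)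

/-- the exponential of `c N_l` -/
noncomputable def expN [Fintype ι] [DecidableEq ι] (M : Mot n ι) (l : Λ) (c : ℂ) : Matrix ι ι ℂ :=
  IsNilpotent.exp (c • cx (M.N l))

/-- the action of `t` through the grading -/
def torus [DecidableEq ι] (M : Mot n ι) (t : ℂˣ) : Matrix ι ι ℂ :=
  Matrix.diagonal fun i => ((t ^ M.deg i : ℂˣ) : ℂ)

/-- the complex points of the Tannaka group of `M`: the group generated by the `exp (c N_l)` and the
`t ^ deg` -/
def gal [Fintype ι] [DecidableEq ι] (M : Mot n ι) : Subgroup (GL ι ℂ) :=
  Subgroup.closure {g | (∃ l c, (g : Matrix ι ι ℂ) = expN M l c) ∨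
    ∃ t, (g : Matrix ι ι ℂ) = torus M t}

/-- morphisms -/
structure IsMor [Fintype ι] [Fintype κ] (M : Mot n ι) (M' : Mot n κ) (F : Matrix κ ι ℚ) : Prop where
  comm : ∀ l, F * M.N l = M'.N l * F
  degree : ∀ i j, F i j ≠ 0 → M'.deg i = M.deg j

/-- complex points of the Tannaka group: families of elements of the groups of all objects which are
compatible with all morphisms -/
structure Point (n : Λ → ℕ) where
  /-- the action on the objects -/
  val : ∀ {ι : Type} [Fintype ι] [DecidableEq ι], Mot n ι → GL ι ℂ
  mem : ∀ {ι : Type} [Fintype ι] [DecidableEq ι] (M : Mot n ι), val M ∈ gal M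
  nat : ∀ {ι κ : Type} [Fintype ι] [DecidableEq ι] [Fintype κ] [DecidableEq κ] (M : Mot n ι)
    (M' : Mot n κ) (F : Matrix κ ι ℚ), IsMor M M' F →
    cx F * (val M : Matrix ι ι ℂ) = (val M' : Matrix κ κ ℂ) * cx F

/-- the object of rank one and degree one -/
def tate (n : Λ → ℕ) : Mot n Unit where
  deg _ := 1
  N _ := 0
  raises l i j h := absurd rfl h
  finite := by simp

open Classical in
/-- the extension of the object of degree zero by the one of degree `n l`, given by `l` -/
noncomputable def ext (n : Λ → ℕ) (l : Λ) : Mot n Bool where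
  deg i := if i then n l else 0
  N l' := fun i j => if l' = l ∧ i = true ∧ j = false then 1 else 0
  raises l' i j h := by
    by_cases h1 : l' = l ∧ i = true ∧ j = false
    · obtain ⟨rfl, rfl, rfl⟩ := h1
      simp
    · simp [h1] at h
  finite := by
    refine (Set.finite_singleton l).subset fun l' h => ?_
    by_contra h1
    apply h
    funext i j
    have h2 : l' ≠ l := h1
    simp [h2]

/-- an automorphism of `ℂ` acting on matrices -/
noncomputable def aut [Fintype ι] [DecidableEq ι] (s : ℂ ≃+* ℂ) : GL ι ℂ →* GL ι ℂ :=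
  Matrix.GeneralLinearGroup.map (s : ℂ →+* ℂ)

/-- the group generated by the elements `x⁻¹ s(x)`, where `s` runs through the automorphisms of `ℂ` -/
noncomputable def conj [Fintype ι] [DecidableEq ι] (x : GL ι ℂ) : Subgroup (GL ι ℂ) :=
  Subgroup.closure {h | ∃ s : ℂ ≃+* ℂ, h = x⁻¹ * aut s x}

/-- the value of a polynomial in the entries -/
noncomputable def ev [Fintype ι] [DecidableEq ι] (g : GL ι ℂ) (p : MvPolynomial (ι × ι) ℚ) : ℂ :=
  MvPolynomial.aeval (fun ij : ι × ι => (g : Matrix ι ι ℂ) ij.1 ij.2) p

/-- the set is given by polynomial equations with rational coefficients -/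
def RatClosed [Fintype ι] [DecidableEq ι] (X : Set (GL ι ℂ)) : Prop :=
  ∃ P : Set (MvPolynomial (ι × ι) ℚ), X = {g | ∀ p ∈ P, ev g p = 0}

/-- the set is a torsor under a subgroup -/
def Heap [Fintype ι] [DecidableEq ι] (X : Set (GL ι ℂ)) : Prop :=
  ∀ a ∈ X, ∀ b ∈ X, ∀ c ∈ X, a * b⁻¹ * c ∈ X

/-- the Zariski closure of a point over `ℚ` -/
def closure [Fintype ι] [DecidableEq ι] (x : GL ι ℂ) : Set (GL ι ℂ) :=
  {g | ∀ p : MvPolynomial (ι × ι) ℚ, ev x p = 0 → ev g p = 0}

end Pool.Agent.H56P
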