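import Mathlib
import Pool.Agent.H56P.Defs

/-!
# Basic properties of the generators
-/

set_option autoImplicit false

namespace Pool.Agent.H56P



set_option linter.unusedSectionVars false

variable {Λ : Type} {n : Λ → ℕ} {ι κ : Type} [Fintype ι] [DecidableEq ι] [Fintype κ] [DecidableEq κ]

theorem pow_deg (M : Mot n ι) (l : Λ) : ∀ (k : ℕ) (i j : ι), ((M.N l) ^ k) i j ≠ 0 →
    M.deg i = M.deg j + k * n l := by
  intro k
  induction k with
  | zero =>
    intro i j h
    rw [pow_zero, Matrix.one_apply] at h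
    by_cases hij : i = j
    · rw [hij]
      simp
    · simp [hij] at h
  | succ k ih =>
    intro i j h
    rw [pow_succ, Matrix.mul_apply] at h
    obtain ⟨m, _, hm⟩ := Finset.exists_ne_zero_of_sum_ne_zero h
    have h1 := ih i m (left_ne_zero_of_mul hm)
    have h2 := M.raises l m j (right_ne_zero_of_mul hm)
    rw [h1, h2]
    push_cast
    ring

/-- a bound for the nilpotency -/
def bnd (M : Mot n ι) : ℕ := (∑ i, (M.deg i).natAbs) + (∑ i, (M.deg i).natAbs) + 2

theorem pow_zero_of_bnd (hn : ∀ l, 1 ≤ n l) (M : Mot n ι) (l : Λ) : (M.N l) ^ bnd M = 0 := by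
  ext i j
  by_contra h
  have h1 := pow_deg M l (bnd M) i j h
  have h2 : (M.deg i).natAbs ≤ ∑ i, (M.deg i).natAbs :=
    Finset.single_le_sum (f := fun i => (M.deg i).natAbs) (fun _ _ => Nat.zero_le _)
      (Finset.mem_univ i)
  have h3 : (M.deg j).natAbs ≤ ∑ i, (M.deg i).natAbs :=
    Finset.single_le_sum (f := fun i => (M.deg i).natAbs) (fun _ _ => Nat.zero_le _)
      (Finset.mem_univ j)
  have h4 : (bnd M : ℤ) ≤ bnd M * n l := by
    have := hn l
    have h5 : (1 : ℤ) ≤ n l := by exact_mod_cast this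
    nlinarith [Int.natCast_nonneg (bnd M)]
  have h5 : bnd M = (∑ i, (M.deg i).natAbs) + (∑ i, (M.deg i).natAbs) + 2 := rfl
  generalize (∑ i, (M.deg i).natAbs) = S at *
  omega

theorem cx_mul {μ : Type} (F : Matrix κ ι ℚ) (G : Matrix ι μ ℚ) :
    cx (F * G) = cx F * cx G := by
  ext i j
  simp [cx, Matrix.mul_apply]

theorem cx_apply {ι κ : Type} (F : Matrix κ ι ℚ) (i : κ) (j : ι) : cx F i j = (F i j : ℂ) := rfl

theorem cx_pow (F : Matrix ι ι ℚ) (k : ℕ) : cx (F ^ k) = cx F ^ k := by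
  induction k with
  | zero =>
    ext i j
    by_cases h : i = j <;> simp [cx, Matrix.one_apply, h]
  | succ k ih => rw [pow_succ, pow_succ, cx_mul, ih]

theorem smul_pow_zero (hn : ∀ l, 1 ≤ n l) (M : Mot n ι) (l : Λ) (c : ℂ) :
    (c • cx (M.N l)) ^ bnd M = 0 := by
  rw [smul_pow, ← cx_pow, pow_zero_of_bnd hn]
  ext i j
  simp [cx]

theorem nilp (hn : ∀ l, 1 ≤ n l) (M : Mot n ι) (l : Λ) (c : ℂ) :
    IsNilpotent (c • cx (M.N l)) := ⟨_, smul_pow_zero hn M l c⟩

theorem expN_add (hn : ∀ l, 1 ≤ n l) (M : Mot n ι) (l : Λ) (c d : ℂ) :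
    expN M l (c + d) = expN M l c * expN M l d := by
  rw [expN, add_smul, IsNilpotent.exp_add_of_commute _ (nilp hn M l c) (nilp hn M l d)]
  · rfl
  · exact (Commute.refl _).smul_left _ |>.smul_right _

theorem expN_zero (M : Mot n ι) (l : Λ) : expN M l 0 = 1 := by
  rw [expN, zero_smul, IsNilpotent.exp_zero]

theorem expN_of_zero (M : Mot n ι) (l : Λ) (c : ℂ) (h : M.N l = 0) : expN M l c = 1 := by
  have : c • cx (M.N l) = 0 := by
    rw [h]
    ext i j
    simp [cx]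
  rw [expN, this, IsNilpotent.exp_zero]

/-- the element `exp (c N_l)` of `GL` -/
noncomputable def E (hn : ∀ l, 1 ≤ n l) (M : Mot n ι) (l : Λ) (c : ℂ) : GL ι ℂ where
  val := expN M l c
  inv := expN M l (-c)
  val_inv := by rw [← expN_add hn, add_neg_cancel, expN_zero]
  inv_val := by rw [← expN_add hn, neg_add_cancel, expN_zero]

theorem E_add (hn : ∀ l, 1 ≤ n l) (M : Mot n ι) (l : Λ) (c d : ℂ) :
    E hn M l (c + d) = E hn M l c * E hn M l d := Units.ext (expN_add hn M l c d)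

theorem E_zero (hn : ∀ l, 1 ≤ n l) (M : Mot n ι) (l : Λ) : E hn M l 0 = 1 :=
  Units.ext (expN_zero M l)

theorem E_neg (hn : ∀ l, 1 ≤ n l) (M : Mot n ι) (l : Λ) (c : ℂ) :
    E hn M l (-c) = (E hn M l c)⁻¹ := by
  rw [eq_inv_iff_mul_eq_one, ← E_add, neg_add_cancel, E_zero]

/-- the elements of the torus -/
noncomputable def D (M : Mot n ι) (t : ℂˣ) : GL ι ℂ where
  val := torus M t
  inv := torus M t⁻¹
  val_inv := by
    rw [torus, torus, Matrix.diagonal_mul_diagonal, ← Matrix.diagonal_one]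
    congr 1
    funext i
    rw [← Units.val_mul, ← mul_zpow, mul_inv_cancel, one_zpow, Units.val_one]
  inv_val := by
    rw [torus, torus, Matrix.diagonal_mul_diagonal, ← Matrix.diagonal_one]
    congr 1
    funext i
    rw [← Units.val_mul, ← mul_zpow, inv_mul_cancel, one_zpow, Units.val_one]

theorem D_val (M : Mot n ι) (t : ℂˣ) : (D M t : Matrix ι ι ℂ) = torus M t := rfl

theorem E_val (hn : ∀ l, 1 ≤ n l) (M : Mot n ι) (l : Λ) (c : ℂ) :
    (E hn M l c : Matrix ι ι ℂ) = expN M l c := rfl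

theorem D_mul (M : Mot n ι) (t u : ℂˣ) : D M (t * u) = D M t * D M u := by
  apply Units.ext
  rw [Units.val_mul, D_val, D_val, D_val, torus, torus, torus, Matrix.diagonal_mul_diagonal]
  congr 1
  funext i
  rw [mul_zpow, Units.val_mul]

theorem D_one (M : Mot n ι) : D M 1 = 1 := by
  apply Units.ext
  rw [D_val, torus]
  simp

theorem D_inv (M : Mot n ι) (t : ℂˣ) : D M t⁻¹ = (D M t)⁻¹ := by
  rw [eq_inv_iff_mul_eq_one, ← D_mul, inv_mul_cancel, D_one]

theorem torus_conj (M : Mot n ι) (l : Λ) (t : ℂˣ) :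
    torus M t * cx (M.N l) * torus M t⁻¹ = ((t : ℂ) ^ n l) • cx (M.N l) := by
  ext i j
  rw [torus, torus, Matrix.mul_diagonal, Matrix.diagonal_mul, Matrix.smul_apply, smul_eq_mul]
  by_cases h : M.N l i j = 0
  · rw [cx_apply, h]
    simp
  · have h1 := M.raises l i j h
    have h2 : ((t ^ M.deg i : ℂˣ) : ℂ) * ((t⁻¹ ^ M.deg j : ℂˣ) : ℂ) = (t : ℂ) ^ n l := by
      rw [← Units.val_mul, h1, zpow_add, inv_zpow]
      rw [mul_right_comm, mul_inv_cancel, one_mul, zpow_natCast, Units.val_pow_eq_pow_val]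
    rw [← h2]
    ring

theorem torus_exp (hn : ∀ l, 1 ≤ n l) (M : Mot n ι) (l : Λ) (t : ℂˣ) (c : ℂ) :
    D M t * E hn M l c * (D M t)⁻¹ = E hn M l ((t : ℂ) ^ n l * c) := by
  apply Units.ext
  rw [← D_inv]
  simp only [Units.val_mul, D_val, E_val]
  rw [expN, expN, IsNilpotent.exp_eq_sum (smul_pow_zero hn M l c),
    IsNilpotent.exp_eq_sum (smul_pow_zero hn M l ((t : ℂ) ^ n l * c)), Finset.mul_sum,
    Finset.sum_mul]
  refine Finset.sum_congr rfl fun k _ => ?_
  rw [Matrix.mul_smul, Matrix.smul_mul]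
  congr 1
  have h1 : torus M t⁻¹ * torus M t = 1 := by
    have := (D M t).inv_val
    exact this
  have h2 : ∀ k : ℕ, torus M t * (c • cx (M.N l)) ^ k * torus M t⁻¹ =
      (torus M t * (c • cx (M.N l)) * torus M t⁻¹) ^ k := by
    intro k
    induction k with
    | zero =>
      rw [pow_zero, pow_zero, mul_one]
      have := (D M t).val_inv
      exact this
    | succ k ih =>
      rw [pow_succ, pow_succ, ← ih]
      simp only [Matrix.mul_assoc]
      rw [← Matrix.mul_assoc (torus M t⁻¹) (torus M t), h1, Matrix.one_mul]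
  rw [h2 k, Matrix.mul_smul, Matrix.smul_mul, torus_conj, smul_smul, mul_comm c]

theorem aut_apply (s : ℂ ≃+* ℂ) (g : GL ι ℂ) (i j : ι) :
    (aut s g : Matrix ι ι ℂ) i j = s ((g : Matrix ι ι ℂ) i j) := rfl

theorem aut_D (s : ℂ ≃+* ℂ) (M : Mot n ι) (t : ℂˣ) :
    aut s (D M t) = D M (Units.map (s : ℂ →* ℂ) t) := by
  apply Units.ext
  ext i j
  rw [aut_apply, D_val, D_val, torus, torus]
  by_cases h : i = j
  · subst h
    rw [Matrix.diagonal_apply_eq, Matrix.diagonal_apply_eq, ← map_zpow, Units.coe_map]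
    rfl
  · rw [Matrix.diagonal_apply_ne _ h, Matrix.diagonal_apply_ne _ h, map_zero]

theorem aut_E (hn : ∀ l, 1 ≤ n l) (s : ℂ ≃+* ℂ) (M : Mot n ι) (l : Λ) (c : ℂ) :
    aut s (E hn M l c) = E hn M l (s c) := by
  apply Units.ext
  have h1 : (aut s (E hn M l c) : Matrix ι ι ℂ) = (s : ℂ →+* ℂ).mapMatrix (expN M l c) := rfl
  rw [h1, E_val, expN, expN, IsNilpotent.map_exp (nilp hn M l c)]
  congr 1
  ext i j
  rw [RingHom.mapMatrix_apply, Matrix.map_apply, Matrix.smul_apply, Matrix.smul_apply, smul_eq_mul,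
    smul_eq_mul, cx_apply, RingHom.coe_coe, map_mul, map_ratCast]

theorem E_mem (hn : ∀ l, 1 ≤ n l) (M : Mot n ι) (l : Λ) (c : ℂ) : E hn M l c ∈ gal M :=
  Subgroup.subset_closure (Or.inl ⟨l, c, rfl⟩)

theorem D_mem (M : Mot n ι) (t : ℂˣ) : D M t ∈ gal M :=
  Subgroup.subset_closure (Or.inr ⟨t, rfl⟩)

/-- the unipotent part -/
noncomputable def unip (hn : ∀ l, 1 ≤ n l) (M : Mot n ι) : Subgroup (GL ι ℂ) :=
  Subgroup.closure {g | ∃ l c, g = E hn M l c}

theorem unip_le (hn : ∀ l, 1 ≤ n l) (M : Mot n ι) : unip hn M ≤ gal M := by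
  rw [unip, Subgroup.closure_le]
  rintro _ ⟨l, c, rfl⟩
  exact E_mem hn M l c

theorem E_mem' (hn : ∀ l, 1 ≤ n l) (M : Mot n ι) (l : Λ) (c : ℂ) : E hn M l c ∈ unip hn M :=
  Subgroup.subset_closure ⟨l, c, rfl⟩

/-- induction over the group -/
theorem gal_induction (hn : ∀ l, 1 ≤ n l) (M : Mot n ι) {p : GL ι ℂ → Prop}
    (hE : ∀ l c, p (E hn M l c)) (hD : ∀ t, p (D M t)) (h1 : p 1)
    (hm : ∀ g h, g ∈ gal M → h ∈ gal M → p g → p h → p (g * h))
    (hi : ∀ g, g ∈ gal M → p g → p g⁻¹) {g : GL ι ℂ} (hg : g ∈ gal M) : p g := by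
  induction hg using Subgroup.closure_induction with
  | mem g hg =>
    rcases hg with ⟨l, c, h⟩ | ⟨t, h⟩
    · have : g = E hn M l c := Units.ext h
      rw [this]
      exact hE l c
    · have : g = D M t := Units.ext h
      rw [this]
      exact hD t
  | one => exact h1
  | mul a b ha hb iha ihb => exact hm a b ha hb iha ihb
  | inv a ha ih => exact hi a ha ih

theorem conj_D_unip (hn : ∀ l, 1 ≤ n l) (M : Mot n ι) (t : ℂˣ) {u : GL ι ℂ}
    (hu : u ∈ unip hn M) : D M t * u * (D M t)⁻¹ ∈ unip hn M := by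
  induction hu using Subgroup.closure_induction with
  | mem g hg =>
    obtain ⟨l, c, rfl⟩ := hg
    rw [torus_exp]
    exact E_mem' hn M l _
  | one => rw [mul_one, mul_inv_cancel]; exact Subgroup.one_mem _
  | mul a b ha hb iha ihb =>
    have : D M t * (a * b) * (D M t)⁻¹ = (D M t * a * (D M t)⁻¹) * (D M t * b * (D M t)⁻¹) := by
      group
    rw [this]
    exact Subgroup.mul_mem _ iha ihb
  | inv a ha ih =>
    have : D M t * a⁻¹ * (D M t)⁻¹ = (D M t * a * (D M t)⁻¹)⁻¹ := by group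
    rw [this]
    exact Subgroup.inv_mem _ ih

theorem aut_gal (hn : ∀ l, 1 ≤ n l) (s : ℂ ≃+* ℂ) (M : Mot n ι) {g : GL ι ℂ} (hg : g ∈ gal M) :
    aut s g ∈ gal M := by
  refine gal_induction hn M (p := fun g => aut s g ∈ gal M) ?_ ?_ ?_ ?_ ?_ hg
  · intro l c
    rw [aut_E]
    exact E_mem hn M _ _
  · intro t
    rw [aut_D]
    exact D_mem M _
  · rw [map_one]
    exact Subgroup.one_mem _
  · intro g h _ _ h1 h2
    rw [map_mul]
    exact Subgroup.mul_mem _ h1 h2
  · intro g _ h1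
    rw [map_inv]
    exact Subgroup.inv_mem _ h1

theorem aut_unip (hn : ∀ l, 1 ≤ n l) (s : ℂ ≃+* ℂ) (M : Mot n ι) {g : GL ι ℂ}
    (hg : g ∈ unip hn M) : aut s g ∈ unip hn M := by
  induction hg using Subgroup.closure_induction with
  | mem g hg =>
    obtain ⟨l, c, rfl⟩ := hg
    rw [aut_E]
    exact E_mem' hn M l _
  | one => rw [map_one]; exact Subgroup.one_mem _
  | mul a b ha hb iha ihb =>
    rw [map_mul]
    exact Subgroup.mul_mem _ iha ihb
  | inv a ha ih =>
    rw [map_inv]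
    exact Subgroup.inv_mem _ ih

theorem aut_aut (s s' : ℂ ≃+* ℂ) (g : GL ι ℂ) : aut s (aut s' g) = aut (s'.trans s) g := by
  apply Units.ext
  ext i j
  rfl

theorem conj_aut (s : ℂ ≃+* ℂ) (x : GL ι ℂ) {h : GL ι ℂ} (hh : h ∈ conj x) : aut s h ∈ conj x := by
  induction hh using Subgroup.closure_induction with
  | mem g hg =>
    obtain ⟨s', rfl⟩ := hg
    rw [map_mul, map_inv, aut_aut]
    have : (aut s x)⁻¹ * aut (s'.trans s) x =
        (x⁻¹ * aut s x)⁻¹ * (x⁻¹ * aut (s'.trans s) x) := by group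
    rw [this]
    exact Subgroup.mul_mem _ (Subgroup.inv_mem _ (Subgroup.subset_closure ⟨s, rfl⟩))
      (Subgroup.subset_closure ⟨_, rfl⟩)
  | one => rw [map_one]; exact Subgroup.one_mem _
  | mul a b ha hb iha ihb =>
    rw [map_mul]
    exact Subgroup.mul_mem _ iha ihb
  | inv a ha ih =>
    rw [map_inv]
    exact Subgroup.inv_mem _ ih

theorem conj_le (hn : ∀ l, 1 ≤ n l) (M : Mot n ι) {x : GL ι ℂ} (hx : x ∈ gal M) :
    conj x ≤ gal M := by
  rw [conj, Subgroup.closure_le]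
  rintro _ ⟨s, rfl⟩
  exact Subgroup.mul_mem _ (Subgroup.inv_mem _ hx) (aut_gal hn s M hx)

end Pool.Agent.H56P
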