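import Mathlib
import Pool.Agent.H56P.Bas

/-!
# Coordinates of the group given by the simplest extensions
-/

set_option autoImplicit false
set_option linter.unusedSectionVars false

namespace Pool.Agent.H56P

variable {Λ : Type} {n : Λ → ℕ} {ι κ : Type} [Fintype ι] [DecidableEq ι] [Fintype κ] [DecidableEq κ]

/-- the basis vectors -/
def e (i : ι) : ι → ℂ := Pi.single i 1

theorem e_vecMul (i : ι) (g : Matrix ι ι ℂ) : Matrix.vecMul (e i) g = g i := by
  rw [e, Matrix.single_one_vecMul]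
  rfl

open Classical in
/-- indices which show that the Tate object and the extensions given by the generators in `L` are
direct summands -/
structure Test (M : Mot n ι) (L : Finset Λ) where
  o : ι
  a : L → ι
  b : L → ι
  dego : M.deg o = 1
  dega : ∀ l, M.deg (a l) = 0
  degb : ∀ l, M.deg (b l) = n l
  No : ∀ l j, M.N l o j = 0
  Na : ∀ l' l j, M.N l' (a l) j = 0
  Nb : ∀ l' (l : L) j, M.N l' (b l) j = if l' = l ∧ j = a l then 1 else 0

variable {M : Mot n ι} {L : Finset Λ}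

theorem Test.ne (T : Test M L) (hn : ∀ l, 1 ≤ n l) (l : L) : T.a l ≠ T.b l := by
  intro h
  have h1 := T.dega l
  have h2 := T.degb l
  rw [h] at h1
  have := hn l
  omega

/-- the action on the distinguished rows -/
structure Rows (T : Test M L) (g : Matrix ι ι ℂ) (t : ℂ) (c : L → ℂ) : Prop where
  ro : Matrix.vecMul (e T.o) g = t • e T.o
  ra : ∀ l, Matrix.vecMul (e (T.a l)) g = e (T.a l)
  rb : ∀ l, Matrix.vecMul (e (T.b l)) g = t ^ n l • e (T.b l) + c l • e (T.a l)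

theorem vm_exp (A : Matrix ι ι ℂ) (K : ℕ) (hA : A ^ K = 0) (v w : ι → ℂ)
    (hv : Matrix.vecMul v A = w) (hw : Matrix.vecMul w A = 0) :
    Matrix.vecMul v (IsNilpotent.exp A) = v + w := by
  have h2 : A ^ (K + 2) = 0 := by rw [pow_add, hA, zero_mul]
  rw [IsNilpotent.exp_eq_sum h2]
  have h3 : ∀ k : ℕ, Matrix.vecMul v (A ^ (k + 2)) = 0 := by
    intro k
    rw [show k + 2 = 1 + 1 + k by ring, pow_add, pow_add, pow_one, ← Matrix.vecMul_vecMul,
      ← Matrix.vecMul_vecMul, hv, hw, Matrix.zero_vecMul]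
  rw [Matrix.vecMul_sum, Finset.sum_range_succ', Finset.sum_range_succ']
  have h4 : ∑ k ∈ Finset.range K, Matrix.vecMul v
      (((k + 1 + 1).factorial : ℚ)⁻¹ • A ^ (k + 1 + 1)) = 0 := by
    refine Finset.sum_eq_zero fun k _ => ?_
    rw [Matrix.vecMul_smul, h3, smul_zero]
  rw [h4]
  simp [hv, add_comm]

open Classical in
theorem rows_E (hn : ∀ l, 1 ≤ n l) (T : Test M L) (l : Λ) (c : ℂ) :
    Rows T (E hn M l c) 1 (fun l' => if l = l' then c else 0) where
  ro := by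
    rw [E_val, expN, vm_exp _ _ (smul_pow_zero hn M l c) (e T.o) 0, add_zero, one_smul]
    · rw [e_vecMul]
      funext j
      simp [cx, T.No]
    · rw [Matrix.zero_vecMul]
  ra l' := by
    rw [E_val, expN, vm_exp _ _ (smul_pow_zero hn M l c) (e (T.a l')) 0, add_zero]
    · rw [e_vecMul]
      funext j
      simp [cx, T.Na]
    · rw [Matrix.zero_vecMul]
  rb l' := by
    rw [E_val, expN, vm_exp _ _ (smul_pow_zero hn M l c) (e (T.b l'))
      ((if l = l' then c else 0) • e (T.a l')), one_pow, one_smul]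
    · rw [e_vecMul]
      funext j
      by_cases h1 : l = l' <;> by_cases h2 : j = T.a l' <;>
        simp [cx, T.Nb, h1, h2, e, Pi.single_apply]
    · rw [Matrix.smul_vecMul, e_vecMul]
      funext j
      simp [cx, T.Na]

theorem rows_D (T : Test M L) (t : ℂˣ) : Rows T (D M t) t 0 where
  ro := by
    rw [e_vecMul, D_val, torus]
    funext j
    by_cases h : T.o = j
    · subst h
      simp [e, T.dego]
    · rw [Matrix.diagonal_apply_ne _ h]
      simp [e, Ne.symm h]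
  ra l := by
    rw [e_vecMul, D_val, torus]
    funext j
    by_cases h : T.a l = j
    · subst h
      simp [e, T.dega]
    · rw [Matrix.diagonal_apply_ne _ h]
      simp [e, Ne.symm h]
  rb l := by
    rw [e_vecMul, D_val, torus]
    funext j
    by_cases h : T.b l = j
    · subst h
      simp [e, T.degb]
    · rw [Matrix.diagonal_apply_ne _ h]
      simp [e, Ne.symm h]

theorem rows_one (T : Test M L) : Rows T (1 : Matrix ι ι ℂ) 1 0 where
  ro := by rw [Matrix.vecMul_one, one_smul]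
  ra l := by rw [Matrix.vecMul_one]
  rb l := by rw [Matrix.vecMul_one]; simp

theorem rows_mul (T : Test M L) {g h : Matrix ι ι ℂ} {t t' : ℂ} {c c' : L → ℂ}
    (hg : Rows T g t c) (hh : Rows T h t' c') :
    Rows T (g * h) (t * t') (fun l => c l + t ^ n l * c' l) where
  ro := by rw [← Matrix.vecMul_vecMul, hg.ro, Matrix.smul_vecMul, hh.ro, smul_smul]
  ra l := by rw [← Matrix.vecMul_vecMul, hg.ra, hh.ra]
  rb l := by
    rw [← Matrix.vecMul_vecMul, hg.rb, Matrix.add_vecMul, Matrix.smul_vecMul, Matrix.smul_vecMul,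
      hh.rb, hh.ra, smul_add, smul_smul, smul_smul, mul_pow, add_smul]
    abel

theorem rows_inv (T : Test M L) {g : GL ι ℂ} {t : ℂ} (ht : t ≠ 0) {c : L → ℂ}
    (hg : Rows T g t c) :
    Rows T (g⁻¹ : GL ι ℂ) t⁻¹ (fun l => -(t⁻¹ ^ n l * c l)) := by
  have hgg : (g : Matrix ι ι ℂ) * ((g⁻¹ : GL ι ℂ) : Matrix ι ι ℂ) = 1 := by
    rw [← Units.val_mul, mul_inv_cancel, Units.val_one]
  have key : ∀ v w : ι → ℂ, Matrix.vecMul v (g : Matrix ι ι ℂ) = w →
      Matrix.vecMul w ((g⁻¹ : GL ι ℂ) : Matrix ι ι ℂ) = v := by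
    intro v w h
    rw [← h, Matrix.vecMul_vecMul, hgg, Matrix.vecMul_one]
  have ra : ∀ l, Matrix.vecMul (e (T.a l)) ((g⁻¹ : GL ι ℂ) : Matrix ι ι ℂ) = e (T.a l) :=
    fun l => key _ _ (hg.ra l)
  refine ⟨?_, ra, ?_⟩
  · have h1 := key _ _ hg.ro
    rw [Matrix.smul_vecMul] at h1
    calc Matrix.vecMul (e T.o) ((g⁻¹ : GL ι ℂ) : Matrix ι ι ℂ)
        = t⁻¹ • (t • Matrix.vecMul (e T.o) ((g⁻¹ : GL ι ℂ) : Matrix ι ι ℂ)) := by
          rw [smul_smul, inv_mul_cancel₀ ht, one_smul]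
      _ = t⁻¹ • e T.o := by rw [h1]
  · intro l
    have h1 := key _ _ (hg.rb l)
    rw [Matrix.add_vecMul, Matrix.smul_vecMul, Matrix.smul_vecMul, ra] at h1
    have h2 : t⁻¹ ^ n l * t ^ n l = 1 := by rw [← mul_pow, inv_mul_cancel₀ ht, one_pow]
    calc Matrix.vecMul (e (T.b l)) ((g⁻¹ : GL ι ℂ) : Matrix ι ι ℂ)
        = (t⁻¹ ^ n l * t ^ n l) • Matrix.vecMul (e (T.b l)) ((g⁻¹ : GL ι ℂ) : Matrix ι ι ℂ) := by
          rw [h2, one_smul]
      _ = t⁻¹ ^ n l • (e (T.b l) - c l • e (T.a l)) := by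
          rw [mul_smul, eq_sub_of_add_eq h1]
      _ = t⁻¹ ^ n l • e (T.b l) + (-(t⁻¹ ^ n l * c l)) • e (T.a l) := by
          rw [smul_sub, smul_smul, neg_smul, sub_eq_add_neg]

theorem rows_gal (hn : ∀ l, 1 ≤ n l) (T : Test M L) {g : GL ι ℂ} (hg : g ∈ gal M) :
    ∃ (t : ℂ) (c : L → ℂ), t ≠ 0 ∧ Rows T g t c := by
  refine gal_induction hn M (p := fun g => ∃ (t : ℂ) (c : L → ℂ), t ≠ 0 ∧ Rows T g t c)
    ?_ ?_ ?_ ?_ ?_ hg
  · intro l c
    exact ⟨1, _, one_ne_zero, rows_E hn T l c⟩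
  · intro t
    exact ⟨t, _, t.ne_zero, rows_D T t⟩
  · exact ⟨1, _, one_ne_zero, rows_one T⟩
  · rintro g h _ _ ⟨t, c, ht, hc⟩ ⟨t', c', ht', hc'⟩
    exact ⟨t * t', _, mul_ne_zero ht ht', rows_mul T hc hc'⟩
  · rintro g _ ⟨t, c, ht, hc⟩
    exact ⟨t⁻¹, _, inv_ne_zero ht, rows_inv T ht hc⟩

/-- the scalar on the Tate object -/
def tt (T : Test M L) (g : GL ι ℂ) : ℂ := (g : Matrix ι ι ℂ) T.o T.o

/-- the coordinates given by the extensions -/
def al (T : Test M L) (g : GL ι ℂ) (l : L) : ℂ := (g : Matrix ι ι ℂ) (T.b l) (T.a l)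

theorem tt_of (T : Test M L) {g : GL ι ℂ} {t : ℂ} {c : L → ℂ} (h : Rows T g t c) :
    tt T g = t := by
  have h1 := h.ro
  rw [e_vecMul] at h1
  rw [tt, congrFun h1 T.o]
  simp [e]

theorem al_of (hn : ∀ l, 1 ≤ n l) (T : Test M L) {g : GL ι ℂ} {t : ℂ} {c : L → ℂ}
    (h : Rows T g t c) : al T g = c := by
  funext l
  have h1 := h.rb l
  rw [e_vecMul] at h1
  rw [al, congrFun h1 (T.a l)]
  simp [e, T.ne hn l]

theorem rows (hn : ∀ l, 1 ≤ n l) (T : Test M L) {g : GL ι ℂ} (hg : g ∈ gal M) :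
    tt T g ≠ 0 ∧ Rows T g (tt T g) (al T g) := by
  obtain ⟨t, c, ht, h⟩ := rows_gal hn T hg
  rw [tt_of T h, al_of hn T h]
  exact ⟨ht, h⟩

theorem tt_mul (hn : ∀ l, 1 ≤ n l) (T : Test M L) {g h : GL ι ℂ} (hg : g ∈ gal M)
    (hh : h ∈ gal M) : tt T (g * h) = tt T g * tt T h :=
  tt_of T (rows_mul T (rows hn T hg).2 (rows hn T hh).2)

theorem al_mul (hn : ∀ l, 1 ≤ n l) (T : Test M L) {g h : GL ι ℂ} (hg : g ∈ gal M)
    (hh : h ∈ gal M) (l : L) : al T (g * h) l = al T g l + tt T g ^ n l * al T h l := by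
  have := al_of hn T (g := g * h) (rows_mul T (rows hn T hg).2 (rows hn T hh).2)
  rw [this]

theorem tt_inv (hn : ∀ l, 1 ≤ n l) (T : Test M L) {g : GL ι ℂ} (hg : g ∈ gal M) :
    tt T g⁻¹ = (tt T g)⁻¹ := tt_of T (rows_inv T (rows hn T hg).1 (rows hn T hg).2)

theorem al_inv (hn : ∀ l, 1 ≤ n l) (T : Test M L) {g : GL ι ℂ} (hg : g ∈ gal M) (l : L) :
    al T g⁻¹ l = -((tt T g)⁻¹ ^ n l * al T g l) := by
  have := al_of hn T (g := g⁻¹) (rows_inv T (rows hn T hg).1 (rows hn T hg).2)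
  rw [this]

theorem tt_E (hn : ∀ l, 1 ≤ n l) (T : Test M L) (l : Λ) (c : ℂ) : tt T (E hn M l c) = 1 :=
  tt_of T (rows_E hn T l c)

open Classical in
theorem al_E (hn : ∀ l, 1 ≤ n l) (T : Test M L) (l : Λ) (c : ℂ) (l' : L) :
    al T (E hn M l c) l' = if l = l' then c else 0 := by
  rw [al_of hn T (rows_E hn T l c)]

theorem tt_D (T : Test M L) (t : ℂˣ) : tt T (D M t) = t := tt_of T (rows_D T t)

theorem al_D (hn : ∀ l, 1 ≤ n l) (T : Test M L) (t : ℂˣ) : al T (D M t) = 0 :=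
  al_of hn T (rows_D T t)

theorem tt_one (T : Test M L) : tt T (1 : GL ι ℂ) = 1 := tt_of T (rows_one T)

theorem al_one (hn : ∀ l, 1 ≤ n l) (T : Test M L) : al T (1 : GL ι ℂ) = 0 :=
  al_of hn T (rows_one T)

theorem tt_aut (T : Test M L) (s : ℂ ≃+* ℂ) (g : GL ι ℂ) : tt T (aut s g) = s (tt T g) := rfl

theorem al_aut (T : Test M L) (s : ℂ ≃+* ℂ) (g : GL ι ℂ) (l : L) :
    al T (aut s g) l = s (al T g l) := rfl

theorem tt_unip (hn : ∀ l, 1 ≤ n l) (T : Test M L) {u : GL ι ℂ} (hu : u ∈ unip hn M) :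
    tt T u = 1 := by
  induction hu using Subgroup.closure_induction with
  | mem g hg =>
    obtain ⟨l, c, rfl⟩ := hg
    exact tt_E hn T l c
  | one => exact tt_one T
  | mul a b ha hb iha ihb =>
    rw [tt_mul hn T (unip_le hn M ha) (unip_le hn M hb), iha, ihb, one_mul]
  | inv a ha ih => rw [tt_inv hn T (unip_le hn M ha), ih, inv_one]

/-- every element is the product of a unipotent element and an element of the torus -/
theorem decomp (hn : ∀ l, 1 ≤ n l) (T : Test M L) {g : GL ι ℂ} (hg : g ∈ gal M) (t : ℂˣ)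
    (ht : tt T g = t) : g * (D M t)⁻¹ ∈ unip hn M := by
  revert t
  refine gal_induction hn M (p := fun g => ∀ t : ℂˣ, tt T g = t → g * (D M t)⁻¹ ∈ unip hn M)
    ?_ ?_ ?_ ?_ ?_ hg
  · intro l c t ht
    rw [tt_E] at ht
    have : t = 1 := Units.ext ht.symm
    rw [this, D_one, inv_one, mul_one]
    exact E_mem' hn M l c
  · intro u t ht
    rw [tt_D] at ht
    rw [Units.ext ht, mul_inv_cancel]
    exact Subgroup.one_mem _
  · intro t ht
    rw [tt_one] at ht
    have : t = 1 := Units.ext ht.symm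
    rw [this, D_one, inv_one, mul_one]
    exact Subgroup.one_mem _
  · intro g h hg hh ihg ihh t ht
    have hg0 := (rows hn T hg).1
    have hh0 := (rows hn T hh).1
    have h1 := ihg (Units.mk0 _ hg0) rfl
    have h2 := ihh (Units.mk0 _ hh0) rfl
    have h3 : t = Units.mk0 _ hg0 * Units.mk0 _ hh0 := by
      apply Units.ext
      rw [← ht, tt_mul hn T hg hh]
      rfl
    rw [h3, D_mul]
    have h4 : g * h * (D M (Units.mk0 _ hg0) * D M (Units.mk0 _ hh0))⁻¹ =
        (g * (D M (Units.mk0 _ hg0))⁻¹) *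
        (D M (Units.mk0 _ hg0) * (h * (D M (Units.mk0 _ hh0))⁻¹) * (D M (Units.mk0 _ hg0))⁻¹) := by
      group
    rw [h4]
    exact Subgroup.mul_mem _ h1 (conj_D_unip hn M _ h2)
  · intro g hg ihg t ht
    have hg0 := (rows hn T hg).1
    have h1 := ihg (Units.mk0 _ hg0) rfl
    have h3 : t = (Units.mk0 _ hg0)⁻¹ := by
      apply Units.ext
      rw [← ht, tt_inv hn T hg]
      rfl
    rw [h3, D_inv, inv_inv]
    have h4 : g⁻¹ * D M (Units.mk0 _ hg0) =
        (D M (Units.mk0 _ hg0)⁻¹ * (g * (D M (Units.mk0 _ hg0))⁻¹) *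
          (D M (Units.mk0 _ hg0)⁻¹)⁻¹)⁻¹ := by
      rw [D_inv]
      group
    rw [h4]
    exact Subgroup.inv_mem _ (conj_D_unip hn M _ h1)

end Pool.Agent.H56P
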