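import Mathlib
import Pool.Agent.H56P.Tst
import Pool.Agent.H56P.Nil

/-!
# The unipotent part is nilpotent, and its abelianization is given by the coordinates
-/

set_option autoImplicit false
set_option linter.unusedSectionVars false

open scoped commutatorElement

namespace Pool.Agent.H56P

variable {Λ : Type} {n : Λ → ℕ} {ι κ : Type} [Fintype ι] [DecidableEq ι] [Fintype κ] [DecidableEq κ]

/-- the matrix raises the degree by at least `j` -/
def Up (M : Mot n ι) (j : ℕ) (A : Matrix ι ι ℂ) : Prop := ∀ i i', A i i' ≠ 0 →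
  M.deg i' + j ≤ M.deg i

variable {M : Mot n ι}

theorem Up.mono {j k : ℕ} (h : k ≤ j) {A : Matrix ι ι ℂ} (hA : Up M j A) : Up M k A := by
  intro i i' h1
  have := hA i i' h1
  omega

theorem Up.one : Up M 0 (1 : Matrix ι ι ℂ) := by
  intro i i' h
  rw [Matrix.one_apply] at h
  have : i = i' := by
    by_contra h1
    simp [h1] at h
  rw [this]
  simp

theorem Up.mul {j k : ℕ} {A B : Matrix ι ι ℂ} (hA : Up M j A) (hB : Up M k B) :
    Up M (j + k) (A * B) := by
  intro i i' h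
  rw [Matrix.mul_apply] at h
  obtain ⟨m, _, hm⟩ := Finset.exists_ne_zero_of_sum_ne_zero h
  have h1 := hA i m (left_ne_zero_of_mul hm)
  have h2 := hB m i' (right_ne_zero_of_mul hm)
  push_cast
  omega

theorem Up.add {j : ℕ} {A B : Matrix ι ι ℂ} (hA : Up M j A) (hB : Up M j B) : Up M j (A + B) := by
  intro i i' h
  by_cases h1 : A i i' = 0
  · have h2 : B i i' ≠ 0 := by
      intro h3
      apply h
      rw [Matrix.add_apply, h1, h3, add_zero]
    exact hB i i' h2
  · exact hA i i' h1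

theorem Up.neg {j : ℕ} {A : Matrix ι ι ℂ} (hA : Up M j A) : Up M j (-A) := by
  intro i i' h
  exact hA i i' fun h1 => h (by rw [Matrix.neg_apply, h1, neg_zero])

theorem Up.sub {j : ℕ} {A B : Matrix ι ι ℂ} (hA : Up M j A) (hB : Up M j B) : Up M j (A - B) := by
  rw [sub_eq_add_neg]
  exact hA.add hB.neg

theorem Up.zero_of {j : ℕ} (hj : bnd M ≤ j) {A : Matrix ι ι ℂ} (hA : Up M j A) : A = 0 := by
  ext i i'
  by_contra h
  have h1 := hA i i' h
  have h2 : (M.deg i).natAbs ≤ ∑ i, (M.deg i).natAbs :=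
    Finset.single_le_sum (f := fun i => (M.deg i).natAbs) (fun _ _ => Nat.zero_le _)
      (Finset.mem_univ i)
  have h3 : (M.deg i').natAbs ≤ ∑ i, (M.deg i).natAbs :=
    Finset.single_le_sum (f := fun i => (M.deg i).natAbs) (fun _ _ => Nat.zero_le _)
      (Finset.mem_univ i')
  have h5 : bnd M = (∑ i, (M.deg i).natAbs) + (∑ i, (M.deg i).natAbs) + 2 := rfl
  generalize (∑ i, (M.deg i).natAbs) = S at *
  omega

theorem up_E (hn : ∀ l, 1 ≤ n l) (M : Mot n ι) (l : Λ) (c : ℂ) :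
    Up M 1 ((E hn M l c : Matrix ι ι ℂ) - 1) := by
  have h1 : Up M 1 (c • cx (M.N l)) := by
    intro i i' h
    have h2 : M.N l i i' ≠ 0 := by
      intro h3
      apply h
      rw [Matrix.smul_apply, cx_apply, h3, Rat.cast_zero, smul_zero]
    have h3 := M.raises l i i' h2
    have := hn l
    push_cast
    omega
  have h2 : ∀ k : ℕ, Up M 1 ((c • cx (M.N l)) ^ (k + 1)) := by
    intro k
    induction k with
    | zero => rw [zero_add, pow_one]; exact h1
    | succ k ih =>
      rw [pow_succ]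
      exact (ih.mul h1).mono (by omega)
  have h3 : (c • cx (M.N l)) ^ (bnd M + 1) = 0 := by
    rw [pow_succ, smul_pow_zero hn M l c, zero_mul]
  rw [E_val, expN, IsNilpotent.exp_eq_sum h3, Finset.sum_range_succ']
  rw [pow_zero, Nat.factorial_zero, Nat.cast_one, inv_one, one_smul, add_sub_cancel_right]
  intro i i' h
  rw [Matrix.sum_apply] at h
  obtain ⟨m, _, hm⟩ := Finset.exists_ne_zero_of_sum_ne_zero h
  refine h2 m i i' fun h4 => hm ?_
  rw [Matrix.smul_apply, h4, smul_zero]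

/-- `g` and its inverse raise the degree by at least `j`, up to the identity -/
def Deep (M : Mot n ι) (j : ℕ) (g : GL ι ℂ) : Prop :=
  Up M j ((g : Matrix ι ι ℂ) - 1) ∧ Up M j (((g⁻¹ : GL ι ℂ) : Matrix ι ι ℂ) - 1)

theorem Deep.up0 {j : ℕ} {g : GL ι ℂ} (h : Deep M j g) : Up M 0 (g : Matrix ι ι ℂ) := by
  have h1 := (h.1.mono (Nat.zero_le j)).add Up.one
  rwa [sub_add_cancel] at h1

theorem Deep.inv {j : ℕ} {g : GL ι ℂ} (h : Deep M j g) : Deep M j g⁻¹ := by
  refine ⟨h.2, ?_⟩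
  rw [inv_inv]
  exact h.1

theorem Deep.mul {j : ℕ} {g h : GL ι ℂ} (hg : Deep M j g) (hh : Deep M j h) :
    Deep M j (g * h) := by
  have key : ∀ {a b : GL ι ℂ}, Deep M j a → Deep M j b →
      Up M j (((a * b : GL ι ℂ) : Matrix ι ι ℂ) - 1) := by
    intro a b ha hb
    have h1 : ((a * b : GL ι ℂ) : Matrix ι ι ℂ) - 1 =
        ((a : Matrix ι ι ℂ) - 1) * (b : Matrix ι ι ℂ) + ((b : Matrix ι ι ℂ) - 1) := by
      rw [Units.val_mul]
      noncomm_ring
    rw [h1]
    exact (ha.1.mul hb.up0).add hb.1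
  refine ⟨key hg hh, ?_⟩
  rw [mul_inv_rev]
  exact key hh.inv hg.inv

theorem Deep.comm {j : ℕ} {g h : GL ι ℂ} (hg : Deep M j g) (hh : Deep M 1 h) :
    Deep M (j + 1) ⁅g, h⁆ := by
  have key : ∀ {a b : GL ι ℂ} {p q : ℕ}, p + q = j + 1 → Deep M p a → Deep M q b →
      Up M (j + 1) (((⁅a, b⁆ : GL ι ℂ) : Matrix ι ι ℂ) - 1) := by
    intro a b p q hpq ha hb
    have e1 : (a : Matrix ι ι ℂ) * ((a⁻¹ : GL ι ℂ) : Matrix ι ι ℂ) = 1 := by
      rw [← Units.val_mul, mul_inv_cancel, Units.val_one]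
    have e2 : (b : Matrix ι ι ℂ) * ((b⁻¹ : GL ι ℂ) : Matrix ι ι ℂ) = 1 := by
      rw [← Units.val_mul, mul_inv_cancel, Units.val_one]
    have h1 : ((⁅a, b⁆ : GL ι ℂ) : Matrix ι ι ℂ) - 1 =
        (((a : Matrix ι ι ℂ) - 1) * ((b : Matrix ι ι ℂ) - 1) -
          ((b : Matrix ι ι ℂ) - 1) * ((a : Matrix ι ι ℂ) - 1)) *
          (((a⁻¹ : GL ι ℂ) : Matrix ι ι ℂ) * ((b⁻¹ : GL ι ℂ) : Matrix ι ι ℂ)) := by
      rw [commutatorElement_def, Units.val_mul, Units.val_mul, Units.val_mul]
      have h2 : ((a : Matrix ι ι ℂ) - 1) * ((b : Matrix ι ι ℂ) - 1) -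
          ((b : Matrix ι ι ℂ) - 1) * ((a : Matrix ι ι ℂ) - 1) =
          (a : Matrix ι ι ℂ) * (b : Matrix ι ι ℂ) - (b : Matrix ι ι ℂ) * (a : Matrix ι ι ℂ) := by
        noncomm_ring
      rw [h2, sub_mul]
      have h3 : (b : Matrix ι ι ℂ) * (a : Matrix ι ι ℂ) *
          (((a⁻¹ : GL ι ℂ) : Matrix ι ι ℂ) * ((b⁻¹ : GL ι ℂ) : Matrix ι ι ℂ)) = 1 := by
        rw [Matrix.mul_assoc, ← Matrix.mul_assoc (a : Matrix ι ι ℂ), e1, Matrix.one_mul, e2]
      rw [h3]
      simp only [Matrix.mul_assoc]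
    rw [h1]
    have h4 := ha.1.mul hb.1
    have h5 := hb.1.mul ha.1
    rw [hpq] at h4
    rw [add_comm, hpq] at h5
    have h6 := (ha.inv.up0.mul hb.inv.up0)
    have h7 := (h4.sub h5).mul h6
    exact h7.mono (by omega)
  refine ⟨key rfl hg hh, ?_⟩
  rw [commutatorElement_inv]
  exact key (by omega) hh hg

theorem deep_E (hn : ∀ l, 1 ≤ n l) (M : Mot n ι) (l : Λ) (c : ℂ) : Deep M 1 (E hn M l c) := by
  refine ⟨up_E hn M l c, ?_⟩
  rw [← E_neg]
  exact up_E hn M l _

theorem deep_one (j : ℕ) : Deep M j (1 : GL ι ℂ) := by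
  have : Up M j (0 : Matrix ι ι ℂ) := fun i i' h => absurd rfl h
  refine ⟨?_, ?_⟩
  · rw [Units.val_one, sub_self]
    exact this
  · rw [inv_one, Units.val_one, sub_self]
    exact this

theorem deep_unip (hn : ∀ l, 1 ≤ n l) {g : GL ι ℂ} (hg : g ∈ unip hn M) : Deep M 1 g := by
  induction hg using Subgroup.closure_induction with
  | mem g hg =>
    obtain ⟨l, c, rfl⟩ := hg
    exact deep_E hn M l c
  | one => exact deep_one 1
  | mul a b ha hb iha ihb => exact iha.mul ihb
  | inv a ha ih => exact ih.inv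

theorem deep_lcs (hn : ∀ l, 1 ≤ n l) : ∀ (k : ℕ) (g : GL ι ℂ),
    g ∈ (unip hn M).lowerCentralSeries k → Deep M (k + 1) g := by
  intro k
  induction k with
  | zero =>
    intro g hg
    exact deep_unip hn hg
  | succ k ih =>
    intro g hg
    rw [Subgroup.mem_lowerCentralSeries_succ_iff] at hg
    induction hg using Subgroup.closure_induction with
    | mem g hg =>
      obtain ⟨p, hp, q, hq, rfl⟩ := hg
      exact (ih p hp).comm (deep_unip hn hq)
    | one => exact deep_one _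
    | mul a b ha hb iha ihb => exact iha.mul ihb
    | inv a ha ih => exact ih.inv

theorem nilpotent_unip (hn : ∀ l, 1 ≤ n l) (M : Mot n ι) : Group.IsNilpotent (unip hn M) := by
  rw [Subgroup.isNilpotent_iff_lowerCentralSeries]
  refine ⟨bnd M, ?_⟩
  rw [eq_bot_iff]
  intro g hg
  have h1 := (deep_lcs hn (bnd M) g hg).1
  have h2 := h1.zero_of (by omega)
  rw [Subgroup.mem_bot]
  apply Units.ext
  rw [Units.val_one]
  exact sub_eq_zero.1 h2

variable {L : Finset Λ}

/-- the abelianization is a quotient of the space of the coordinates -/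
theorem of_eq (hn : ∀ l, 1 ≤ n l) (T : Test M L) (hsupp : ∀ l, M.N l ≠ 0 → l ∈ L)
    (u : GL ι ℂ) (hu : u ∈ unip hn M) :
    (Abelianization.of (⟨u, hu⟩ : unip hn M)) =
      ∏ l : L, Abelianization.of (⟨E hn M l (al T u l), E_mem' hn M l _⟩ : unip hn M) := by
  classical
  induction hu using Subgroup.closure_induction with
  | mem g hg =>
    obtain ⟨l, c, rfl⟩ := hg
    by_cases hl : l ∈ L
    · rw [Finset.prod_eq_single ⟨l, hl⟩]
      · congr 2
        rw [al_E]
        simp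
      · intro l' _ hne
        rw [al_E, if_neg (fun h => hne (Subtype.ext h.symm))]
        have : (⟨E hn M l' 0, E_mem' hn M l' 0⟩ : unip hn M) = 1 := Subtype.ext (E_zero hn M l')
        rw [this, map_one]
      · intro h
        exact absurd (Finset.mem_univ _) h
    · have h0 : M.N l = 0 := by
        by_contra h
        exact hl (hsupp l h)
      have h1 : E hn M l c = 1 := Units.ext (expN_of_zero M l c h0)
      rw [Finset.prod_eq_one]
      · have : (⟨E hn M l c, E_mem' hn M l c⟩ : unip hn M) = 1 := Subtype.ext h1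
        exact (congrArg _ this).trans (map_one _)
      · intro l' _
        rw [al_E, if_neg (fun h => hl (by rw [h]; exact l'.2))]
        have : (⟨E hn M l' 0, E_mem' hn M l' 0⟩ : unip hn M) = 1 := Subtype.ext (E_zero hn M l')
        rw [this, map_one]
  | one =>
    rw [Finset.prod_eq_one]
    · exact map_one _
    · intro l' _
      rw [al_one hn T, Pi.zero_apply]
      have : (⟨E hn M l' 0, E_mem' hn M l' 0⟩ : unip hn M) = 1 := Subtype.ext (E_zero hn M l')
      rw [this, map_one]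
  | mul a b ha hb iha ihb =>
    have h1 : (⟨a * b, Subgroup.mul_mem _ ha hb⟩ : unip hn M) = ⟨a, ha⟩ * ⟨b, hb⟩ := rfl
    have h2 : ∀ l : L, (⟨E hn M l (al T (a * b) l), E_mem' hn M l _⟩ : unip hn M) =
        ⟨E hn M l (al T a l), E_mem' hn M l _⟩ * ⟨E hn M l (al T b l), E_mem' hn M l _⟩ := by
      intro l
      apply Subtype.ext
      change E hn M l (al T (a * b) l) = E hn M l (al T a l) * E hn M l (al T b l)
      rw [← E_add, al_mul hn T (unip_le hn M ha) (unip_le hn M hb), tt_unip hn T ha, one_pow,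
        one_mul]
    refine (congrArg _ h1).trans ?_
    rw [map_mul, iha, ihb, ← Finset.prod_mul_distrib]
    refine Finset.prod_congr rfl fun l _ => ?_
    rw [h2, map_mul]
  | inv a ha ih =>
    have h1 : (⟨a⁻¹, Subgroup.inv_mem _ ha⟩ : unip hn M) = (⟨a, ha⟩ : unip hn M)⁻¹ := rfl
    have h2 : ∀ l : L, (⟨E hn M l (al T a⁻¹ l), E_mem' hn M l _⟩ : unip hn M) =
        (⟨E hn M l (al T a l), E_mem' hn M l _⟩ : unip hn M)⁻¹ := by
      intro l
      apply Subtype.ext
      change E hn M l (al T a⁻¹ l) = (E hn M l (al T a l))⁻¹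
      rw [← E_neg, al_inv hn T (unip_le hn M ha), tt_unip hn T ha, inv_one, one_pow, one_mul]
    refine (congrArg _ h1).trans ?_
    rw [map_inv, ih, ← Finset.prod_inv_distrib]
    refine Finset.prod_congr rfl fun l _ => ?_
    rw [h2, map_inv]

/-- the elements with coordinates zero are products of commutators -/
theorem mem_comm (hn : ∀ l, 1 ≤ n l) (T : Test M L) (hsupp : ∀ l, M.N l ≠ 0 → l ∈ L)
    (u : GL ι ℂ) (hu : u ∈ unip hn M) (h0 : al T u = 0) :
    (⟨u, hu⟩ : unip hn M) ∈ commutator (unip hn M) := by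
  have h1 := of_eq hn T hsupp u hu
  rw [h0] at h1
  have h2 : Abelianization.of (⟨u, hu⟩ : unip hn M) = 1 := by
    rw [h1]
    refine Finset.prod_eq_one fun l _ => ?_
    have : (⟨E hn M l ((0 : L → ℂ) l), E_mem' hn M l _⟩ : unip hn M) = 1 :=
      Subtype.ext (E_zero hn M l)
    rw [this, map_one]
  exact (QuotientGroup.eq_one_iff _).1 h2

/-- a subgroup with all coordinates is everything -/
theorem unip_le_of (hn : ∀ l, 1 ≤ n l) (T : Test M L) (hsupp : ∀ l, M.N l ≠ 0 → l ∈ L)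
    (H : Subgroup (GL ι ℂ)) (hH : ∀ v : L → ℂ, ∃ u ∈ H, u ∈ unip hn M ∧ al T u = v) :
    unip hn M ≤ H := by
  have := nilpotent_unip hn M
  have h1 : H.subgroupOf (unip hn M) ⊔ commutator (unip hn M) = ⊤ := by
    rw [eq_top_iff]
    rintro ⟨u, hu⟩ _
    obtain ⟨k, hkH, hkU, hk⟩ := hH (al T u)
    have h2 : (⟨u, hu⟩ : unip hn M) = ⟨k, hkU⟩ * ⟨k⁻¹ * u, Subgroup.mul_mem _
        (Subgroup.inv_mem _ hkU) hu⟩ := by
      apply Subtype.ext
      change u = k * (k⁻¹ * u)
      group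
    rw [h2]
    refine Subgroup.mul_mem_sup hkH (mem_comm hn T hsupp _ _ ?_)
    funext l
    rw [al_mul hn T (Subgroup.inv_mem _ (unip_le hn M hkU)) (unip_le hn M hu),
      al_inv hn T (unip_le hn M hkU), tt_inv hn T (unip_le hn M hkU), tt_unip hn T hkU, hk]
    simp
  have h2 := nil_top _ h1
  exact Subgroup.subgroupOf_eq_top.1 h2

end Pool.Agent.H56P
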