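import Mathlib
import Pool.Agent.H56P.Unp
import Pool.Agent.H56P.Fld

/-!
# The group generated by the `x⁻¹ s(x)`
-/

set_option autoImplicit false
set_option linter.unusedSectionVars false

namespace Pool.Agent.H56P

variable {Λ : Type} {n : Λ → ℕ} {ι κ : Type} [Fintype ι] [DecidableEq ι] [Fintype κ] [DecidableEq κ]

variable {M : Mot n ι} {L : Finset Λ}

/-- every scalar occurs -/
theorem exists_tt (hn : ∀ l, 1 ≤ n l) (T : Test M L) {x : GL ι ℂ} (hx : x ∈ gal M)
    (hτ : Transcendental ℚ (tt T x)) {t : ℂ} (ht : t ≠ 0) : ∃ h ∈ conj x, tt T h = t := by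
  obtain ⟨s₁, s₂, h12⟩ := exists_quot hτ ht
  have hτ0 := (rows hn T hx).1
  have m1 := aut_gal hn s₁ M hx
  have m2 := aut_gal hn s₂ M hx
  have e : ∀ s : ℂ ≃+* ℂ, tt T (x⁻¹ * aut s x) = (tt T x)⁻¹ * s (tt T x) := by
    intro s
    rw [tt_mul hn T (Subgroup.inv_mem _ hx) (aut_gal hn s M hx), tt_inv hn T hx, tt_aut]
  refine ⟨(x⁻¹ * aut s₂ x)⁻¹ * (x⁻¹ * aut s₁ x), Subgroup.mul_mem _ (Subgroup.inv_mem _
    (Subgroup.subset_closure ⟨s₂, rfl⟩)) (Subgroup.subset_closure ⟨s₁, rfl⟩), ?_⟩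
  have g1 : x⁻¹ * aut s₁ x ∈ gal M := Subgroup.mul_mem _ (Subgroup.inv_mem _ hx) m1
  have g2 : x⁻¹ * aut s₂ x ∈ gal M := Subgroup.mul_mem _ (Subgroup.inv_mem _ hx) m2
  rw [tt_mul hn T (Subgroup.inv_mem _ g2) g1, tt_inv hn T g2, e, e, h12]
  have h2 : s₂ (tt T x) ≠ 0 := by
    rw [Ne, map_eq_zero_iff _ s₂.injective]
    exact hτ0
  field_simp

/-- a set of vectors as in the proof: the coordinates of the unipotent elements of `H` -/
noncomputable def crd (hn : ∀ l, 1 ≤ n l) (T : Test M L) (H : Subgroup (GL ι ℂ)) :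
    AddSubgroup (L → ℂ) where
  carrier := {v | ∃ u ∈ H, u ∈ unip hn M ∧ al T u = v}
  zero_mem' := ⟨1, Subgroup.one_mem _, Subgroup.one_mem _, al_one hn T⟩
  add_mem' := by
    rintro v w ⟨u, hu, hu', rfl⟩ ⟨u', hu1, hu1', rfl⟩
    refine ⟨u * u', Subgroup.mul_mem _ hu hu1, Subgroup.mul_mem _ hu' hu1', ?_⟩
    funext l
    rw [al_mul hn T (unip_le hn M hu') (unip_le hn M hu1'), tt_unip hn T hu', one_pow, one_mul]
    rfl
  neg_mem' := by
    rintro v ⟨u, hu, hu', rfl⟩
    refine ⟨u⁻¹, Subgroup.inv_mem _ hu, Subgroup.inv_mem _ hu', ?_⟩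
    funext l
    rw [al_inv hn T (unip_le hn M hu'), tt_unip hn T hu', inv_one, one_pow, one_mul]
    rfl

/-- the functions of the degree that preserve a group of vectors -/
def pres (n : Λ → ℕ) (L : Finset Λ) (B : AddSubgroup (L → ℂ)) : Subring (ℕ → ℂ) where
  carrier := {f | ∀ v ∈ B, (fun l : L => f (n l) * v l) ∈ B}
  mul_mem' := by
    intro f g hf hg v hv
    have := hf _ (hg v hv)
    simpa [mul_assoc] using this
  one_mem' := by
    intro v hv
    simpa using hv
  add_mem' := by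
    intro f g hf hg v hv
    have := B.add_mem (hf v hv) (hg v hv)
    convert this using 1
    funext l
    simp [add_mul]
  zero_mem' := by
    intro v _
    convert B.zero_mem using 1
    funext l
    simp
  neg_mem' := by
    intro f hf v hv
    have := B.neg_mem (hf v hv)
    convert this using 1
    funext l
    simp

/-- interpolation: if the powers of the degree preserve the group of vectors, all functions do -/
theorem interp (hn : ∀ l, 1 ≤ n l) (B : AddSubgroup (L → ℂ))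
    (hB : ∀ t : ℂ, t ≠ 0 → (fun d => t ^ d) ∈ pres n L B) (g : ℕ → ℂ) {v : L → ℂ} (hv : v ∈ B) :
    (fun l : L => g (n l) * v l) ∈ B := by
  classical
  set S : Finset ℕ := (L.image n).filter fun d => g d ≠ 0 with hS
  set P : ℕ → ℕ → ℂ := fun d k => ∏ e ∈ (L.image n).erase d, ((2 : ℂ) ^ e - 2 ^ k) with hP
  have hP0 : ∀ d, P d d ≠ 0 := by
    intro d
    rw [hP]
    refine Finset.prod_ne_zero_iff.2 fun e he => ?_
    rw [sub_ne_zero]
    intro h
    have h1 : ((2 ^ e : ℕ) : ℂ) = ((2 ^ d : ℕ) : ℂ) := by push_cast; exact h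
    have h2 := Nat.pow_right_injective (le_refl 2) (Nat.cast_injective h1)
    exact Finset.ne_of_mem_erase he h2
  have ht : ∀ d ∈ S, ∃ t : ℂ, t ≠ 0 ∧ t ^ d = g d / P d d := by
    intro d hd
    obtain ⟨hd1, hd2⟩ := Finset.mem_filter.1 hd
    obtain ⟨l, _, rfl⟩ := Finset.mem_image.1 hd1
    obtain ⟨t, ht⟩ := IsAlgClosed.exists_pow_nat_eq (g (n l) / P (n l) (n l)) (hn l)
    refine ⟨t, ?_, ht⟩
    rintro rfl
    rw [zero_pow (by have := hn l; omega)] at ht
    exact div_ne_zero hd2 (hP0 _) ht.symm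
  choose! t ht0 ht using ht
  have hmem : (∑ d ∈ S, (∏ e ∈ (L.image n).erase d, (((2 ^ e : ℕ) : ℕ → ℂ) - fun k => (2 : ℂ) ^ k)) *
      fun k => t d ^ k) ∈ pres n L B := by
    refine Subring.sum_mem _ fun d hd => Subring.mul_mem _ (Subring.prod_mem _ fun e _ =>
      Subring.sub_mem _ ?_ ?_) (hB _ (ht0 d hd))
    · exact natCast_mem _ _
    · exact hB 2 two_ne_zero
  have h1 := hmem v hv
  convert h1 using 1
  funext l
  congr 1
  rw [Finset.sum_apply]
  have h2 : ∀ d, ((∏ e ∈ (L.image n).erase d, (((2 ^ e : ℕ) : ℕ → ℂ) - fun k => (2 : ℂ) ^ k)) *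
      fun k => t d ^ k) (n l) = P d (n l) * t d ^ n l := by
    intro d
    rw [Pi.mul_apply, Finset.prod_apply]
    congr 1
    refine Finset.prod_congr rfl fun e _ => ?_
    rw [Pi.sub_apply, Pi.natCast_apply]
    push_cast
    rfl
  simp only [h2]
  have h3 : ∀ d ∈ S, d ≠ n l → P d (n l) * t d ^ n l = 0 := by
    intro d _ hne
    rw [hP]
    have : n l ∈ (L.image n).erase d :=
      Finset.mem_erase.2 ⟨hne.symm, Finset.mem_image_of_mem _ l.2⟩
    simp only
    rw [Finset.prod_eq_zero this (sub_self _), zero_mul]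
  by_cases hg : g (n l) = 0
  · rw [hg, Finset.sum_eq_zero]
    intro d hd
    refine h3 d hd ?_
    rintro rfl
    exact (Finset.mem_filter.1 hd).2 hg
  · have hl : n l ∈ S := Finset.mem_filter.2 ⟨Finset.mem_image_of_mem _ l.2, hg⟩
    rw [Finset.sum_eq_single_of_mem _ hl h3, ht _ hl, mul_div_cancel₀ _ (hP0 _)]

theorem crd_pow (hn : ∀ l, 1 ≤ n l) (T : Test M L) {x : GL ι ℂ} (hx : x ∈ gal M)
    (hτ : Transcendental ℚ (tt T x)) {t : ℂ} (ht : t ≠ 0) :
    (fun d => t ^ d) ∈ pres n L (crd hn T (conj x)) := by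
  rintro v ⟨u, hu, hu', rfl⟩
  obtain ⟨h, hh, rfl⟩ := exists_tt hn T hx hτ ht
  have hhg := conj_le hn M hx hh
  have hug := unip_le hn M hu'
  have h1 : h * u * h⁻¹ ∈ gal M := Subgroup.mul_mem _ (Subgroup.mul_mem _ hhg hug)
    (Subgroup.inv_mem _ hhg)
  refine ⟨h * u * h⁻¹, Subgroup.mul_mem _ (Subgroup.mul_mem _ hh hu) (Subgroup.inv_mem _ hh),
    ?_, ?_⟩
  · have h2 := decomp hn T h1 1 (by
      rw [tt_mul hn T (Subgroup.mul_mem _ hhg hug) (Subgroup.inv_mem _ hhg), tt_mul hn T hhg hug,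
        tt_inv hn T hhg, tt_unip hn T hu', mul_one, mul_inv_cancel₀ ht, Units.val_one])
    rw [D_one, inv_one, mul_one] at h2
    exact h2
  · funext l
    rw [al_mul hn T (Subgroup.mul_mem _ hhg hug) (Subgroup.inv_mem _ hhg), al_mul hn T hhg hug,
      al_inv hn T hhg, tt_mul hn T hhg hug, tt_unip hn T hu', mul_one]
    have h3 : tt T h ^ n l * (tt T h)⁻¹ ^ n l = 1 := by
      rw [← mul_pow, mul_inv_cancel₀ ht, one_pow]
    linear_combination (-al T h l) * h3

theorem main (hn : ∀ l, 1 ≤ n l) (T : Test M L) (hsupp : ∀ l, M.N l ≠ 0 → l ∈ L) {x : GL ι ℂ}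
    (hx : x ∈ gal M) (hτ : Transcendental ℚ (tt T x))
    (hind : ∀ (d : ℕ) (r : L → ℚ), (∀ l, r l ≠ 0 → n l = d) →
      (∃ p q : ℚ, ∑ l, (r l : ℂ) * al T x l = p + q * tt T x ^ d) → r = 0) :
    gal M ≤ conj x := by
  classical
  set H := conj x with hH
  have hHg : H ≤ gal M := conj_le hn M hx
  have hint := fun (g : ℕ → ℂ) (v : L → ℂ) (hv : v ∈ crd hn T H) =>
    interp hn (crd hn T H) (fun t ht => crd_pow hn T hx hτ ht) g hv
  -- the space of the coordinates
  let C : Submodule ℂ (L → ℂ) :=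
    { crd hn T H with
      smul_mem' := by
        intro c v hv
        exact hint (fun _ => c) v hv }
  have hunip1 : ∀ g ∈ gal M, tt T g = 1 → g ∈ unip hn M := by
    intro g hg h1
    have h2 := decomp hn T hg 1 (by rw [h1, Units.val_one])
    rwa [D_one, inv_one, mul_one] at h2
  have hC : C = ⊤ := by
    by_contra hne
    obtain ⟨r, hr0, hr⟩ := exists_form C (by
      rintro s v ⟨u, hu, hu', rfl⟩
      exact ⟨aut s u, conj_aut s x hu, aut_unip hn s M hu', rfl⟩) hne
    obtain ⟨l₀, hl₀⟩ : ∃ l, r l ≠ 0 := by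
      by_contra h
      push Not at h
      exact hr0 (funext h)
    set d := n l₀ with hd
    have hd1 : 1 ≤ d := hn _
    set r' : L → ℚ := fun l => if n l = d then r l else 0 with hr'
    have hr'C : ∀ v ∈ C, ∑ l, (r' l : ℂ) * v l = 0 := by
      intro v hv
      have h1 := hr _ (hint (fun k => if k = d then 1 else 0) v hv)
      rw [← h1]
      refine Finset.sum_congr rfl fun l _ => ?_
      rw [hr']
      by_cases h : n l = d <;> simp [h]
    have hr'd : ∀ l, r' l ≠ 0 → n l = d := by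
      intro l h
      by_contra h1
      apply h
      rw [hr']
      simp [h1]
    set φ : GL ι ℂ → ℂ := fun g => ∑ l, (r' l : ℂ) * al T g l with hφ
    have hφm : ∀ g ∈ gal M, ∀ h ∈ gal M, φ (g * h) = φ g + tt T g ^ d * φ h := by
      intro g hg h hh
      simp only [hφ]
      rw [Finset.mul_sum, ← Finset.sum_add_distrib]
      refine Finset.sum_congr rfl fun l _ => ?_
      rw [al_mul hn T hg hh]
      by_cases h0 : r' l = 0
      · rw [h0]
        simp
      · rw [hr'd l h0]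
        ring
    have hφ1 : φ 1 = 0 := by
      simp only [hφ]
      rw [al_one hn T]
      simp
    have hφs : ∀ (s : ℂ ≃+* ℂ) (g : GL ι ℂ), φ (aut s g) = s (φ g) := by
      intro s g
      simp only [hφ]
      rw [map_sum]
      refine Finset.sum_congr rfl fun l _ => ?_
      rw [al_aut, map_mul, map_ratCast]
    have heq : ∀ h ∈ H, ∀ h' ∈ H, tt T h = tt T h' → φ h = φ h' := by
      intro h hh h' hh' he
      have hg := hHg hh
      have hg' := hHg hh'
      have h0' := (rows hn T hg').1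
      have hu : h * h'⁻¹ ∈ unip hn M := by
        refine hunip1 _ (Subgroup.mul_mem _ hg (Subgroup.inv_mem _ hg')) ?_
        rw [tt_mul hn T hg (Subgroup.inv_mem _ hg'), tt_inv hn T hg', he, mul_inv_cancel₀ h0']
      have h2 : φ (h * h'⁻¹) = 0 :=
        hr'C _ ⟨h * h'⁻¹, Subgroup.mul_mem _ hh (Subgroup.inv_mem _ hh'), hu, rfl⟩
      have h3 := hφm _ (unip_le hn M hu) _ hg'
      rw [inv_mul_cancel_right, h2, tt_unip hn T hu, one_pow, one_mul, zero_add] at h3
      exact h3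
    obtain ⟨h₂, hh₂, ht₂⟩ := exists_tt hn T hx hτ (two_ne_zero (α := ℂ))
    obtain ⟨q, hq⟩ := rat_of_fixed (z := φ h₂) (by
      intro s
      rw [← hφs]
      refine heq _ (conj_aut s x hh₂) _ hh₂ ?_
      rw [tt_aut, ht₂]
      exact map_ofNat s 2)
    have hrel : ∀ h ∈ H, φ h * (1 - 2 ^ d) = q * (1 - tt T h ^ d) := by
      intro h hh
      have hg := hHg hh
      have hg₂ := hHg hh₂
      have h1 := heq (h * h₂) (Subgroup.mul_mem _ hh hh₂) (h₂ * h) (Subgroup.mul_mem _ hh₂ hh) (by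
        rw [tt_mul hn T hg hg₂, tt_mul hn T hg₂ hg, mul_comm])
      rw [hφm _ hg _ hg₂, hφm _ hg₂ _ hg, ht₂, hq] at h1
      linear_combination h1
    have hτ0 := (rows hn T hx).1
    set τ := tt T x with hτd
    have hfix : ∀ s : ℂ ≃+* ℂ, s ((1 - 2 ^ d) * φ x + q * τ ^ d) =
        (1 - 2 ^ d) * φ x + q * τ ^ d := by
      intro s
      have h1 := hrel (x⁻¹ * aut s x) (Subgroup.subset_closure ⟨s, rfl⟩)
      have hxi := Subgroup.inv_mem _ hx
      have hxs := aut_gal hn s M hx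
      have h2 := hφm x hx x⁻¹ hxi
      rw [mul_inv_cancel, hφ1] at h2
      have h3 := hφm x⁻¹ hxi _ hxs
      rw [hφs] at h3
      rw [tt_mul hn T hxi hxs, tt_inv hn T hx, tt_aut, h3, tt_inv hn T hx] at h1
      rw [← hτd] at h1 h2
      rw [map_add, map_mul, map_sub, map_one, map_pow, map_mul, map_ratCast, map_pow, map_ofNat]
      have h4 : τ ^ d * τ⁻¹ ^ d = 1 := by rw [← mul_pow, mul_inv_cancel₀ hτ0, one_pow]
      have h5 : (τ⁻¹ * s τ) ^ d = τ⁻¹ ^ d * (s τ) ^ d := mul_pow _ _ _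
      rw [h5] at h1
      linear_combination τ ^ d * h1 + (1 - 2 ^ d) * h2 - ((1 - 2 ^ d) * s (φ x) +
        q * s τ ^ d) * h4
    obtain ⟨p, hp⟩ := rat_of_fixed hfix
    have h2d : (1 - 2 ^ d : ℂ) ≠ 0 := by
      rw [sub_ne_zero]
      intro h
      have h1 : ((1 : ℕ) : ℂ) = ((2 ^ d : ℕ) : ℂ) := by push_cast; exact h
      have h2 := Nat.cast_injective h1
      have h3 : 1 < 2 ^ d := Nat.one_lt_two_pow (by omega)
      omega
    have hz := hind d r' hr'd ⟨p / (1 - 2 ^ d), -q / (1 - 2 ^ d), by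
      have : (∑ l, (r' l : ℂ) * al T x l) = φ x := rfl
      rw [this]
      push_cast
      field_simp
      linear_combination hp⟩
    have : r' l₀ = r l₀ := by rw [hr']; simp [hd]
    rw [hz] at this
    exact hl₀ this.symm
  have hU : unip hn M ≤ H := by
    refine unip_le_of hn T hsupp H fun v => ?_
    have : v ∈ C := by rw [hC]; trivial
    obtain ⟨u, hu, hu', h⟩ := this
    exact ⟨u, hu, hu', h⟩
  intro g hg
  have hg0 := (rows hn T hg).1
  obtain ⟨h, hh, ht⟩ := exists_tt hn T hx hτ hg0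
  have hhg := hHg hh
  have h1 : g * h⁻¹ ∈ unip hn M := by
    refine hunip1 _ (Subgroup.mul_mem _ hg (Subgroup.inv_mem _ hhg)) ?_
    rw [tt_mul hn T hg (Subgroup.inv_mem _ hhg), tt_inv hn T hhg, ht, mul_inv_cancel₀ hg0]
  have h2 := Subgroup.mul_mem _ (hU h1) hh
  rwa [inv_mul_cancel_right] at h2

end Pool.Agent.H56P
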