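import Mathlib
import Pool.Agent.H56P.Mn

/-!
# Reduction to objects with the simplest extensions as summands
-/

set_option autoImplicit false
set_option linter.unusedSectionVars false

namespace Pool.Agent.H56P

variable {Λ : Type} {n : Λ → ℕ} {ι κ : Type} [Fintype ι] [DecidableEq ι] [Fintype κ] [DecidableEq κ]

/-- the matrix of an inclusion of bases -/
def inc (f : ι → κ) : Matrix κ ι ℚ := fun p j => if p = f j then 1 else 0

theorem cx_inc_mul (f : ι → κ) (hf : Function.Injective f) (g : Matrix ι ι ℂ) (i j : ι) :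
    (cx (inc f) * g) (f i) j = g i j := by
  rw [Matrix.mul_apply, Finset.sum_eq_single i]
  · simp [cx_apply, inc]
  · intro k _ hk
    have : f i ≠ f k := fun h => hk (hf h).symm
    simp [cx_apply, inc, this]
  · intro h
    exact absurd (Finset.mem_univ _) h

theorem cx_inc_mul' (f : ι → κ) (g : Matrix ι ι ℂ) (p : κ) (hp : p ∉ Set.range f) (j : ι) :
    (cx (inc f) * g) p j = 0 := by
  rw [Matrix.mul_apply]
  refine Finset.sum_eq_zero fun k _ => ?_
  have : p ≠ f k := fun h => hp ⟨k, h.symm⟩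
  simp [cx_apply, inc, this]

theorem mul_cx_inc (f : ι → κ) (g : Matrix κ κ ℂ) (p : κ) (j : ι) :
    (g * cx (inc f)) p j = g p (f j) := by
  rw [Matrix.mul_apply, Finset.sum_eq_single (f j)]
  · simp [cx_apply, inc]
  · intro k _ hk
    simp [cx_apply, inc, hk]
  · intro h
    exact absurd (Finset.mem_univ _) h

/-- inclusions of direct summands -/
structure Incl (M : Mot n ι) (M' : Mot n κ) (f : ι → κ) : Prop where
  inj : Function.Injective f
  deg : ∀ j, M'.deg (f j) = M.deg j
  N : ∀ l i j, M'.N l (f i) (f j) = M.N l i j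
  N0 : ∀ l p j, p ∉ Set.range f → M'.N l p (f j) = 0

theorem Incl.mor {M : Mot n ι} {M' : Mot n κ} {f : ι → κ} (h : Incl M M' f) :
    IsMor M M' (inc f) where
  comm l := by
    ext p j
    have e2 : (M'.N l * inc f) p j = M'.N l p (f j) := by
      rw [Matrix.mul_apply, Finset.sum_eq_single (f j)]
      · simp [inc]
      · intro k _ hk
        simp [inc, hk]
      · intro h
        exact absurd (Finset.mem_univ _) h
    rw [e2]
    by_cases hp : p ∈ Set.range f
    · obtain ⟨i, rfl⟩ := hp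
      rw [h.N, Matrix.mul_apply, Finset.sum_eq_single i]
      · simp [inc]
      · intro k _ hk
        have : f i ≠ f k := fun h1 => hk (h.inj h1).symm
        simp [inc, this]
      · intro h
        exact absurd (Finset.mem_univ _) h
    · rw [h.N0 l p j hp, Matrix.mul_apply]
      refine Finset.sum_eq_zero fun k _ => ?_
      have : p ≠ f k := fun h => hp ⟨k, h.symm⟩
      simp [inc, this]
  degree p j hpj := by
    have : p = f j := by
      by_contra h1
      apply hpj
      simp [inc, h1]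
    rw [this, h.deg]

theorem Incl.val {M : Mot n ι} {M' : Mot n κ} {f : ι → κ} (h : Incl M M' f) (x : Point n)
    (i j : ι) : (x.val M' : Matrix κ κ ℂ) (f i) (f j) = (x.val M : Matrix ι ι ℂ) i j := by
  have h1 := congrFun (congrFun (x.nat M M' _ h.mor) (f i)) j
  rw [cx_inc_mul f h.inj, mul_cx_inc] at h1
  exact h1.symm

/-- direct sums -/
def Mot.sum (M : Mot n ι) (M' : Mot n κ) : Mot n (ι ⊕ κ) where
  deg := Sum.elim M.deg M'.deg
  N l := Matrix.fromBlocks (M.N l) 0 0 (M'.N l)
  raises l i j h := by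
    rcases i with i | i <;> rcases j with j | j
    · exact M.raises l i j h
    · exact absurd rfl h
    · exact absurd rfl h
    · exact M'.raises l i j h
  finite := by
    refine (M.finite.union M'.finite).subset fun l h => ?_
    by_contra h1
    rw [Set.mem_union, not_or] at h1
    have h2 : M.N l = 0 := by simpa using h1.1
    have h3 : M'.N l = 0 := by simpa using h1.2
    apply h
    rw [h2, h3, Matrix.fromBlocks_zero]

theorem incl_inl (M : Mot n ι) (M' : Mot n κ) : Incl M (M.sum M') Sum.inl where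
  inj := Sum.inl_injective
  deg _ := rfl
  N _ _ _ := rfl
  N0 l p j hp := by
    rcases p with p | p
    · exact absurd ⟨p, rfl⟩ hp
    · rfl

theorem incl_inr (M : Mot n ι) (M' : Mot n κ) : Incl M' (M.sum M') Sum.inr where
  inj := Sum.inr_injective
  deg _ := rfl
  N _ _ _ := rfl
  N0 l p j hp := by
    rcases p with p | p
    · rfl
    · exact absurd ⟨p, rfl⟩ hp

open Classical in
/-- the sum of the Tate object and of the extensions given by the generators in `L` -/
noncomputable def tst (n : Λ → ℕ) (L : Finset Λ) : Mot n (Option (L × Bool)) where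
  deg i := match i with
    | none => 1
    | some (l, c) => if c then n l else 0
  N l' := fun i j => match i, j with
    | some (l, true), some (l'', false) => if l = l'' ∧ l' = l then 1 else 0
    | _, _ => 0
  raises l' i j h := by
    rcases i with _ | ⟨l, _ | _⟩ <;> rcases j with _ | ⟨l'', _ | _⟩ <;>
      simp at h ⊢
    obtain ⟨rfl, rfl⟩ := h
    rfl
  finite := by
    refine L.finite_toSet.subset fun l h => ?_
    by_contra h1
    apply h
    funext i j
    rcases i with _ | ⟨l', _ | _⟩ <;> rcases j with _ | ⟨l'', _ | _⟩ <;> simp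
    intro _ h2
    exact h1 (h2 ▸ l'.2)

theorem incl_tate (n : Λ → ℕ) (L : Finset Λ) : Incl (tate n) (tst n L) (fun _ => none) where
  inj := fun _ _ _ => rfl
  deg _ := rfl
  N _ _ _ := rfl
  N0 l p j hp := by
    rcases p with _ | ⟨l', _ | _⟩ <;> rfl

open Classical in
theorem incl_ext (n : Λ → ℕ) (L : Finset Λ) (l : L) :
    Incl (ext n l) (tst n L) (fun c => some (l, c)) where
  inj := by
    intro a b h
    simpa using h
  deg c := rfl
  N l' i j := by
    rcases i with _ | _ <;> rcases j with _ | _ <;> simp [tst, ext]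
  N0 l' p c hp := by
    rcases p with _ | ⟨l'', _ | _⟩ <;> rcases c with _ | _ <;> simp [tst]
    intro h1 _
    apply hp
    exact ⟨true, by rw [h1]⟩

theorem Incl.comp {μ : Type} [Fintype μ] [DecidableEq μ] {M : Mot n ι} {M' : Mot n κ}
    {M'' : Mot n μ} {f : ι → κ} {g : κ → μ} (hf : Incl M M' f) (hg : Incl M' M'' g) :
    Incl M M'' (g ∘ f) where
  inj := hg.inj.comp hf.inj
  deg j := by rw [Function.comp_apply, hg.deg, hf.deg]
  N l i j := by rw [Function.comp_apply, Function.comp_apply, hg.N, hf.N]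
  N0 l p j hp := by
    by_cases h : p ∈ Set.range g
    · obtain ⟨q, rfl⟩ := h
      rw [Function.comp_apply, hg.N]
      refine hf.N0 l q j fun h => hp ?_
      obtain ⟨i, rfl⟩ := h
      exact ⟨i, rfl⟩
    · exact hg.N0 l p _ h

open Classical in
/-- the test structure on `M ⊕ tst L` -/
noncomputable def test (M : Mot n ι) (L : Finset Λ) : Test (M.sum (tst n L)) L where
  o := Sum.inr none
  a l := Sum.inr (some (l, false))
  b l := Sum.inr (some (l, true))
  dego := rfl
  dega _ := rfl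
  degb _ := rfl
  No l j := by
    rcases j with j | j
    · rfl
    · change (tst n L).N l none j = 0
      rcases j with _ | ⟨l', _ | _⟩ <;> rfl
  Na l' l j := by
    rcases j with j | j
    · rfl
    · change (tst n L).N l' (some (l, false)) j = 0
      rcases j with _ | ⟨l', _ | _⟩ <;> rfl
  Nb l' l j := by
    rcases j with j | j
    · change (0 : ℚ) = _
      simp
    · change (tst n L).N l' (some (l, true)) j = _
      rcases j with _ | ⟨l'', _ | _⟩ <;> simp [tst]
      by_cases h1 : l = l''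
      · subst h1
        simp
      · simp [h1, Ne.symm h1]

/-- the matrices correspond to each other -/
def Rel (F : Matrix κ ι ℚ) (g : Matrix ι ι ℂ) (g' : Matrix κ κ ℂ) : Prop :=
  cx F * g = g' * cx F

theorem Rel.mul {F : Matrix κ ι ℚ} {g h : Matrix ι ι ℂ} {g' h' : Matrix κ κ ℂ}
    (h1 : Rel F g g') (h2 : Rel F h h') : Rel F (g * h) (g' * h') := by
  unfold Rel at *
  rw [← Matrix.mul_assoc, h1, Matrix.mul_assoc, h2, Matrix.mul_assoc]

theorem Rel.one (F : Matrix κ ι ℚ) : Rel F 1 1 := by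
  unfold Rel
  rw [Matrix.mul_one, Matrix.one_mul]

theorem Rel.inv {F : Matrix κ ι ℚ} {g : GL ι ℂ} {g' : GL κ ℂ} (h : Rel F g g') :
    Rel F (g⁻¹ : GL ι ℂ) (g'⁻¹ : GL κ ℂ) := by
  unfold Rel at *
  have e1 : (g : Matrix ι ι ℂ) * ((g⁻¹ : GL ι ℂ) : Matrix ι ι ℂ) = 1 := by
    rw [← Units.val_mul, mul_inv_cancel, Units.val_one]
  have e2 : ((g'⁻¹ : GL κ ℂ) : Matrix κ κ ℂ) * (g' : Matrix κ κ ℂ) = 1 := by
    rw [← Units.val_mul, inv_mul_cancel, Units.val_one]
  calc cx F * ((g⁻¹ : GL ι ℂ) : Matrix ι ι ℂ)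
      = ((g'⁻¹ : GL κ ℂ) : Matrix κ κ ℂ) * (g' : Matrix κ κ ℂ) *
        (cx F * ((g⁻¹ : GL ι ℂ) : Matrix ι ι ℂ)) := by rw [e2, Matrix.one_mul]
    _ = ((g'⁻¹ : GL κ ℂ) : Matrix κ κ ℂ) * ((g' : Matrix κ κ ℂ) * cx F) *
        ((g⁻¹ : GL ι ℂ) : Matrix ι ι ℂ) := by simp only [Matrix.mul_assoc]
    _ = ((g'⁻¹ : GL κ ℂ) : Matrix κ κ ℂ) * cx F := by
        rw [← h, Matrix.mul_assoc, Matrix.mul_assoc, e1, Matrix.mul_one]

theorem cx_aut (F : Matrix κ ι ℚ) (s : ℂ ≃+* ℂ) : (cx F).map s = cx F := by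
  ext i j
  rw [Matrix.map_apply, cx_apply, map_ratCast]

theorem Rel.aut {F : Matrix κ ι ℚ} {g : GL ι ℂ} {g' : GL κ ℂ} (h : Rel F g g') (s : ℂ ≃+* ℂ) :
    Rel F (aut s g : GL ι ℂ) (aut s g' : GL κ ℂ) := by
  unfold Rel at *
  have h1 := congrArg (fun A : Matrix κ ι ℂ => A.map (s : ℂ →+* ℂ)) h
  simp only [Matrix.map_mul] at h1
  have h2 : (cx F).map (s : ℂ →+* ℂ) = cx F := cx_aut F s
  rw [h2] at h1
  exact h1

theorem Rel.E (hn : ∀ l, 1 ≤ n l) {M : Mot n ι} {M' : Mot n κ} {F : Matrix κ ι ℚ}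
    (hF : IsMor M M' F) (l : Λ) (c : ℂ) : Rel F (E hn M l c) (E hn M' l c) := by
  have h1 : ∀ k : ℕ, Rel F ((c • cx (M.N l)) ^ k) ((c • cx (M'.N l)) ^ k) := by
    intro k
    induction k with
    | zero => rw [pow_zero, pow_zero]; exact Rel.one F
    | succ k ih =>
      rw [pow_succ, pow_succ]
      refine ih.mul ?_
      unfold Rel
      rw [Matrix.mul_smul, Matrix.smul_mul, ← cx_mul, ← cx_mul, hF.comm]
  have e1 : (c • cx (M.N l)) ^ (bnd M + bnd M') = 0 := by
    rw [pow_add, smul_pow_zero hn, zero_mul]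
  have e2 : (c • cx (M'.N l)) ^ (bnd M + bnd M') = 0 := by
    rw [pow_add, smul_pow_zero hn M', mul_zero]
  unfold Rel at *
  rw [E_val, E_val, expN, expN, IsNilpotent.exp_eq_sum e1, IsNilpotent.exp_eq_sum e2,
    Matrix.mul_sum, Matrix.sum_mul]
  refine Finset.sum_congr rfl fun k _ => ?_
  rw [Matrix.mul_smul, Matrix.smul_mul, h1]

theorem Rel.D {M : Mot n ι} {M' : Mot n κ} {F : Matrix κ ι ℚ}
    (hF : IsMor M M' F) (t : ℂˣ) : Rel F (D M t) (D M' t) := by
  unfold Rel
  ext i j
  rw [D_val, D_val, torus, torus, Matrix.mul_diagonal, Matrix.diagonal_mul]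
  by_cases h : F i j = 0
  · rw [cx_apply, h]
    simp
  · rw [hF.degree i j h, mul_comm]

theorem exists_rel (hn : ∀ l, 1 ≤ n l) {M : Mot n ι} {M' : Mot n κ} {F : Matrix κ ι ℚ}
    (hF : IsMor M M' F) {g : GL ι ℂ} (hg : g ∈ gal M) : ∃ g' ∈ gal M', Rel F g g' := by
  refine gal_induction hn M (p := fun g => ∃ g' ∈ gal M', Rel F g g') ?_ ?_ ?_ ?_ ?_ hg
  · intro l c
    exact ⟨_, E_mem hn M' l c, Rel.E hn hF l c⟩
  · intro t
    exact ⟨_, D_mem M' t, Rel.D hF t⟩
  · exact ⟨1, Subgroup.one_mem _, Rel.one F⟩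
  · rintro g h _ _ ⟨g', hg', h1⟩ ⟨h', hh', h2⟩
    exact ⟨g' * h', Subgroup.mul_mem _ hg' hh', h1.mul h2⟩
  · rintro g _ ⟨g', hg', h1⟩
    exact ⟨g'⁻¹, Subgroup.inv_mem _ hg', h1.inv⟩

theorem exists_rel_conj {F : Matrix κ ι ℚ} {x : GL ι ℂ} {x' : GL κ ℂ} (hx : Rel F x x')
    {h' : GL κ ℂ} (hh : h' ∈ conj x') : ∃ h ∈ conj x, Rel F h h' := by
  induction hh using Subgroup.closure_induction with
  | mem g hg =>
    obtain ⟨s, rfl⟩ := hg
    exact ⟨x⁻¹ * aut s x, Subgroup.subset_closure ⟨s, rfl⟩, (Rel.inv hx).mul (hx.aut s)⟩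
  | one => exact ⟨1, Subgroup.one_mem _, Rel.one F⟩
  | mul a b _ _ iha ihb =>
    obtain ⟨a', ha, ha'⟩ := iha
    obtain ⟨b', hb, hb'⟩ := ihb
    exact ⟨a' * b', Subgroup.mul_mem _ ha hb, ha'.mul hb'⟩
  | inv a _ ih =>
    obtain ⟨a', ha, ha'⟩ := ih
    exact ⟨a'⁻¹, Subgroup.inv_mem _ ha, ha'.inv⟩

/-- the period of the extension given by the generator `l` -/
noncomputable def per (x : Point n) (l : Λ) : ℂ := (x.val (ext n l) : Matrix Bool Bool ℂ) true false

/-- the period of the Tate object -/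
noncomputable def tau (x : Point n) : ℂ := (x.val (tate n) : Matrix Unit Unit ℂ) () ()

/-- for every degree `d` the periods of the extensions given by the generators in `S` of degree `d`
are linearly independent modulo `ℚ + ℚ τ ^ d` -/
def Ind (x : Point n) (S : Set Λ) : Prop := ∀ (d : ℕ) (r : Λ →₀ ℚ),
  (∀ l ∈ r.support, l ∈ S ∧ n l = d) →
  (∃ p q : ℚ, (r.sum fun l a => (a : ℂ) * per x l) = p + q * tau x ^ d) → r = 0

theorem gal_le_conj (hn : ∀ l, 1 ≤ n l) (x : Point n) (hτ : Transcendental ℚ (tau x)) (S : Set Λ)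
    (hS : Ind x S) (M : Mot n ι) (hM : ∀ l, M.N l ≠ 0 → l ∈ S) : gal M ≤ conj (x.val M) := by
  classical
  set L : Finset Λ := M.finite.toFinset with hL
  have hLm : ∀ l, l ∈ L ↔ M.N l ≠ 0 := by
    intro l
    rw [hL, Set.Finite.mem_toFinset]
    rfl
  have hi1 := incl_inl M (tst n L)
  have hi2 := (incl_tate n L).comp (incl_inr M (tst n L))
  have hi3 := fun l : L => (incl_ext n L l).comp (incl_inr M (tst n L))
  have ht : tt (test M L) (x.val (M.sum (tst n L))) = tau x := hi2.val x () ()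
  have ha : ∀ l : L, al (test M L) (x.val (M.sum (tst n L))) l = per x l := fun l =>
    (hi3 l).val x true false
  have hsupp : ∀ l, (M.sum (tst n L)).N l ≠ 0 → l ∈ L := by
    intro l h
    by_contra h1
    apply h
    have h2 : M.N l = 0 := by
      by_contra h3
      exact h1 ((hLm l).2 h3)
    ext i j
    rcases i with i | i <;> rcases j with j | j
    · change M.N l i j = 0
      rw [h2]
      rfl
    · rfl
    · rfl
    · change (tst n L).N l i j = 0
      rcases i with _ | ⟨l', _ | _⟩ <;> rcases j with _ | ⟨l'', _ | _⟩ <;> simp [tst]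
      intro _ h3
      exact h1 (h3 ▸ l'.2)
  have hmain := main hn (test M L) hsupp (x.mem _) (by rw [ht]; exact hτ) (by
    rintro d r hr ⟨p, q, hpq⟩
    have h1 := hS d (Finsupp.onFinset L (fun l => if h : l ∈ L then r ⟨l, h⟩ else 0) (by
      intro l h
      by_contra h2
      apply h
      rw [dif_neg h2])) (by
        intro l hl
        rw [Finsupp.mem_support_iff, Finsupp.onFinset_apply] at hl
        by_cases h2 : l ∈ L
        · rw [dif_pos h2] at hl
          exact ⟨hM l ((hLm l).1 h2), hr ⟨l, h2⟩ hl⟩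
        · rw [dif_neg h2] at hl
          exact absurd rfl hl) ⟨p, q, by
        rw [← ht, ← hpq, Finsupp.onFinset_sum _ (by intro a; simp), ← Finset.sum_coe_sort]
        refine Finset.sum_congr rfl fun l _ => ?_
        rw [dif_pos l.2, ha]⟩
    funext l
    have h2 := DFunLike.congr_fun h1 (l : Λ)
    rw [Finsupp.onFinset_apply, dif_pos l.2] at h2
    exact h2)
  intro g hg
  obtain ⟨g', hg', hrel⟩ := exists_rel hn hi1.mor hg
  have hxx : Rel (inc Sum.inl) ((x.val M : GL ι ℂ) : Matrix ι ι ℂ)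
    ((x.val (M.sum (tst n L)) : GL (ι ⊕ Option (L × Bool)) ℂ) :
      Matrix (ι ⊕ Option (L × Bool)) (ι ⊕ Option (L × Bool)) ℂ) := x.nat _ _ _ hi1.mor
  obtain ⟨h, hh, hrel'⟩ := exists_rel_conj hxx (hmain hg')
  have h1 : g = h := by
    apply Units.ext
    ext i j
    unfold Rel at hrel hrel'
    rw [← hrel'] at hrel
    have h2 := congrFun (congrFun hrel (Sum.inl i)) j
    rw [cx_inc_mul _ Sum.inl_injective, cx_inc_mul _ Sum.inl_injective] at h2
    exact h2
  rw [h1]
  exact hh

end Pool.Agent.H56P
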