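import Mathlib
import Pool.Agent.H56P.Red

/-!
# Equivalences
-/

set_option autoImplicit false
set_option linter.unusedSectionVars false

namespace Pool.Agent.H56P

variable {Λ : Type} {n : Λ → ℕ} {ι κ : Type} [Fintype ι] [DecidableEq ι] [Fintype κ] [DecidableEq κ]

theorem ev_aut (s : ℂ ≃+* ℂ) (g : GL ι ℂ) (p : MvPolynomial (ι × ι) ℚ) :
    ev (aut s g) p = s (ev g p) := by
  unfold ev
  let S : ℂ →ₐ[ℚ] ℂ := { (s : ℂ →+* ℂ) with commutes' := fun q => map_ratCast (s : ℂ →+* ℂ) q }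
  have h1 : (MvPolynomial.aeval fun ij : ι × ι => (aut s g : Matrix ι ι ℂ) ij.1 ij.2) =
      S.comp (MvPolynomial.aeval fun ij : ι × ι => (g : Matrix ι ι ℂ) ij.1 ij.2) := by
    apply MvPolynomial.algHom_ext
    intro ij
    rw [AlgHom.comp_apply, MvPolynomial.aeval_X, MvPolynomial.aeval_X]
    rfl
  rw [h1]
  rfl

/-- a subtorsor over `ℚ` that contains `x` contains `x h` for `h` in the group of the `x⁻¹ s(x)` -/
theorem conj_mem {X : Set (GL ι ℂ)} (hX : RatClosed X) (hX' : Heap X) {x : GL ι ℂ} (hx : x ∈ X)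
    {h : GL ι ℂ} (hh : h ∈ conj x) : x * h ∈ X := by
  obtain ⟨P, rfl⟩ := hX
  induction hh using Subgroup.closure_induction with
  | mem g hg =>
    obtain ⟨s, rfl⟩ := hg
    rw [mul_inv_cancel_left]
    intro p hp
    rw [ev_aut, hx p hp, map_zero]
  | one => rw [mul_one]; exact hx
  | mul a b _ _ iha ihb =>
    have := hX' _ iha _ hx _ ihb
    have h1 : x * a * x⁻¹ * (x * b) = x * (a * b) := by group
    rwa [h1] at this
  | inv a _ ih =>
    have := hX' _ hx _ ih _ hx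
    have h1 : x * (x * a)⁻¹ * x = x * a⁻¹ := by group
    rwa [h1] at this

/-- `(b) → (c)` -/
theorem gal_subset {M : Mot n ι} {x : GL ι ℂ} (hxM : x ∈ gal M) (hb : gal M ≤ conj x)
    {X : Set (GL ι ℂ)} (hX : RatClosed X) (hX' : Heap X) (hx : x ∈ X) : (gal M : Set (GL ι ℂ)) ⊆ X := by
  intro g hg
  have h1 := conj_mem hX hX' hx (hb (Subgroup.mul_mem _ (Subgroup.inv_mem _ hxM) hg))
  rwa [mul_inv_cancel_left] at h1

/-- the matrices `g` with `G g = g G'` -/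
def inter (G G' : Matrix ι ι ℚ) : Set (GL ι ℂ) :=
  {g | cx G * (g : Matrix ι ι ℂ) = (g : Matrix ι ι ℂ) * cx G'}

theorem inter_rat (G G' : Matrix ι ι ℚ) : RatClosed (inter G G') := by
  refine ⟨Set.range fun ij : ι × ι => ∑ k, MvPolynomial.C (G ij.1 k) * MvPolynomial.X (k, ij.2) -
    ∑ k, MvPolynomial.X (ij.1, k) * MvPolynomial.C (G' k ij.2), ?_⟩
  ext g
  have h1 : ∀ ij : ι × ι, ev g (∑ k, MvPolynomial.C (G ij.1 k) * MvPolynomial.X (k, ij.2) -
    ∑ k, MvPolynomial.X (ij.1, k) * MvPolynomial.C (G' k ij.2)) =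
    (cx G * (g : Matrix ι ι ℂ)) ij.1 ij.2 - ((g : Matrix ι ι ℂ) * cx G') ij.1 ij.2 := by
    intro ij
    rw [ev, map_sub, map_sum, map_sum, Matrix.mul_apply, Matrix.mul_apply]
    simp only [map_mul, MvPolynomial.aeval_C, MvPolynomial.aeval_X]
    rfl
  constructor
  · rintro hg p ⟨ij, rfl⟩
    rw [h1]
    rw [show cx G * (g : Matrix ι ι ℂ) = (g : Matrix ι ι ℂ) * cx G' from hg, sub_self]
  · intro hg
    change cx G * (g : Matrix ι ι ℂ) = (g : Matrix ι ι ℂ) * cx G'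
    ext i j
    have h2 := hg _ ⟨(i, j), rfl⟩
    rw [h1] at h2
    exact sub_eq_zero.1 h2

theorem inter_heap (G G' : Matrix ι ι ℚ) : Heap (inter G G') := by
  intro a ha b hb c hc
  change cx G * ((a * b⁻¹ * c : GL ι ℂ) : Matrix ι ι ℂ) =
    ((a * b⁻¹ * c : GL ι ℂ) : Matrix ι ι ℂ) * cx G'
  have ha' : cx G * (a : Matrix ι ι ℂ) = (a : Matrix ι ι ℂ) * cx G' := ha
  have hb' : cx G * (b : Matrix ι ι ℂ) = (b : Matrix ι ι ℂ) * cx G' := hb
  have hc' : cx G * (c : Matrix ι ι ℂ) = (c : Matrix ι ι ℂ) * cx G' := hc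
  have e1 : (b : Matrix ι ι ℂ) * ((b⁻¹ : GL ι ℂ) : Matrix ι ι ℂ) = 1 := by
    rw [← Units.val_mul, mul_inv_cancel, Units.val_one]
  have e2 : ((b⁻¹ : GL ι ℂ) : Matrix ι ι ℂ) * (b : Matrix ι ι ℂ) = 1 := by
    rw [← Units.val_mul, inv_mul_cancel, Units.val_one]
  have hb2 : ((b⁻¹ : GL ι ℂ) : Matrix ι ι ℂ) * cx G = cx G' * ((b⁻¹ : GL ι ℂ) : Matrix ι ι ℂ) := by
    calc ((b⁻¹ : GL ι ℂ) : Matrix ι ι ℂ) * cx G
        = ((b⁻¹ : GL ι ℂ) : Matrix ι ι ℂ) * (cx G * (b : Matrix ι ι ℂ)) *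
          ((b⁻¹ : GL ι ℂ) : Matrix ι ι ℂ) := by
          rw [Matrix.mul_assoc, Matrix.mul_assoc, e1, Matrix.mul_one]
      _ = cx G' * ((b⁻¹ : GL ι ℂ) : Matrix ι ι ℂ) := by
          rw [hb', ← Matrix.mul_assoc, e2, Matrix.one_mul]
  rw [Units.val_mul, Units.val_mul]
  calc cx G * ((a : Matrix ι ι ℂ) * ((b⁻¹ : GL ι ℂ) : Matrix ι ι ℂ) * (c : Matrix ι ι ℂ))
      = (cx G * (a : Matrix ι ι ℂ)) * ((b⁻¹ : GL ι ℂ) : Matrix ι ι ℂ) * (c : Matrix ι ι ℂ) := by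
        simp only [Matrix.mul_assoc]
    _ = (a : Matrix ι ι ℂ) * (cx G' * ((b⁻¹ : GL ι ℂ) : Matrix ι ι ℂ)) * (c : Matrix ι ι ℂ) := by
        rw [ha']
        simp only [Matrix.mul_assoc]
    _ = (a : Matrix ι ι ℂ) * ((b⁻¹ : GL ι ℂ) : Matrix ι ι ℂ) * (cx G * (c : Matrix ι ι ℂ)) := by
        rw [← hb2]
        simp only [Matrix.mul_assoc]
    _ = (a : Matrix ι ι ℂ) * ((b⁻¹ : GL ι ℂ) : Matrix ι ι ℂ) * (c : Matrix ι ι ℂ) * cx G' := by
        rw [hc']
        simp only [Matrix.mul_assoc]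

theorem cx_inj {F G : Matrix κ ι ℚ} (h : cx F = cx G) : F = G := by
  ext i j
  have := congrFun (congrFun h i) j
  rw [cx_apply, cx_apply] at this
  exact_mod_cast this

/-- what commutes with all `exp (c N)` commutes with `N` -/
theorem comm_of_exp (hn : ∀ l, 1 ≤ n l) (W : Mot n ι) (G : Matrix ι ι ℚ) (l : Λ)
    (h : ∀ c : ℂ, cx G * (E hn W l c : Matrix ι ι ℂ) = (E hn W l c : Matrix ι ι ℂ) * cx G) :
    G * W.N l = W.N l * G := by
  apply cx_inj
  rw [cx_mul, cx_mul]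
  set A := cx (W.N l) with hA
  have hA0 : A ^ (bnd W + 2) = 0 := by
    rw [pow_add, hA, ← cx_pow, pow_zero_of_bnd hn]
    have : cx (0 : Matrix ι ι ℚ) = 0 := by
      ext i j
      simp [cx]
    rw [this, zero_mul]
  ext i j
  set P : Polynomial ℂ := ∑ k ∈ Finset.range (bnd W + 2),
    Polynomial.C (((k.factorial : ℚ)⁻¹ : ℂ) * ((cx G * A ^ k) i j - (A ^ k * cx G) i j)) *
      Polynomial.X ^ k with hP
  have hz : P = 0 := by
    apply Polynomial.funext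
    intro c
    have h1 := congrFun (congrFun (h c) i) j
    have h2 : (c • cx (W.N l)) ^ (bnd W + 2) = 0 := by
      rw [smul_pow, ← hA, hA0, smul_zero]
    rw [E_val, expN, IsNilpotent.exp_eq_sum h2, Matrix.mul_sum, Matrix.sum_mul, Matrix.sum_apply,
      Matrix.sum_apply, ← sub_eq_zero, ← Finset.sum_sub_distrib] at h1
    rw [hP, Polynomial.eval_finsetSum, Polynomial.eval_zero, ← h1]
    refine Finset.sum_congr rfl fun k _ => ?_
    rw [Polynomial.eval_mul, Polynomial.eval_C, Polynomial.eval_pow, Polynomial.eval_X,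
      Matrix.mul_smul, Matrix.smul_mul, smul_pow, Matrix.mul_smul, Matrix.smul_mul, ← hA]
    simp only [Matrix.smul_apply, smul_eq_mul, Rat.smul_def]
    push_cast
    ring
  have h3 := congrArg (fun Q : Polynomial ℂ => Q.coeff 1) hz
  simp only [hP, Polynomial.finsetSum_coeff, Polynomial.coeff_C_mul, Polynomial.coeff_X_pow,
    Polynomial.coeff_zero] at h3
  rw [Finset.sum_eq_single 1] at h3
  · simp only [if_true, mul_one, Nat.factorial_one, Nat.cast_one, pow_one] at h3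
    have h4 : (((1 : ℚ)⁻¹ : ℚ) : ℂ) = 1 := by norm_num
    rw [Rat.cast_one, inv_one, one_mul] at h3
    exact sub_eq_zero.1 h3
  · intro k _ hk
    simp [Ne.symm hk]
  · intro h5
    exact absurd (Finset.mem_range.2 (by omega)) h5

theorem degree_of_torus (W : Mot n ι) (G : Matrix ι ι ℚ)
    (h : ∀ t : ℂˣ, cx G * (D W t : Matrix ι ι ℂ) = (D W t : Matrix ι ι ℂ) * cx G) (i j : ι)
    (hG : G i j ≠ 0) : W.deg i = W.deg j := by
  have h1 := congrFun (congrFun (h (Units.mk0 2 two_ne_zero)) i) j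
  rw [D_val, torus, Matrix.mul_diagonal, Matrix.diagonal_mul, cx_apply] at h1
  have h2 : ((G i j : ℚ) : ℂ) ≠ 0 := by exact_mod_cast hG
  have h3 : ((2 : ℂ) ^ W.deg j) = (2 : ℂ) ^ W.deg i := by
    rw [mul_comm] at h1
    have := mul_right_cancel₀ h2 h1
    rw [Units.val_zpow_eq_zpow_val, Units.val_zpow_eq_zpow_val] at this
    exact this
  have h4 : ((2 : ℝ) ^ W.deg j) = (2 : ℝ) ^ W.deg i := by
    apply Complex.ofReal_injective
    rw [Complex.ofReal_zpow, Complex.ofReal_zpow]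
    push_cast
    exact h3
  exact (zpow_right_injective₀ (by norm_num) (by norm_num) h4).symm

/-- `(c) → (d)` -/
theorem full (hn : ∀ l, 1 ≤ n l) (x : Point n) (M : Mot n ι) (M' : Mot n κ)
    (hc : ∀ X : Set (GL (ι ⊕ κ) ℂ), RatClosed X → Heap X → x.val (M.sum M') ∈ X →
      (gal (M.sum M') : Set (GL (ι ⊕ κ) ℂ)) ⊆ X) (F F' : Matrix κ ι ℚ)
    (hF : cx F * (x.val M : Matrix ι ι ℂ) = (x.val M' : Matrix κ κ ℂ) * cx F') :
    F = F' ∧ IsMor M M' F := by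
  set W := M.sum M' with hW
  set G : Matrix (ι ⊕ κ) (ι ⊕ κ) ℚ := Matrix.fromBlocks 0 0 F 0 with hG
  set G' : Matrix (ι ⊕ κ) (ι ⊕ κ) ℚ := Matrix.fromBlocks 0 0 F' 0 with hG'
  have hxW : (x.val W : Matrix (ι ⊕ κ) (ι ⊕ κ) ℂ) =
      Matrix.fromBlocks (x.val M : Matrix ι ι ℂ) 0 0 (x.val M' : Matrix κ κ ℂ) := by
    have i1 := incl_inl M M'
    have i2 := incl_inr M M'
    ext p q
    rcases p with p | p <;> rcases q with q | q
    · exact i1.val x p q
    · have h1 := congrFun (congrFun (x.nat M' W _ i2.mor) (Sum.inl p)) q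
      rw [mul_cx_inc, cx_inc_mul' Sum.inr _ _ (by simp)] at h1
      exact h1.symm
    · have h1 := congrFun (congrFun (x.nat M W _ i1.mor) (Sum.inr p)) q
      rw [mul_cx_inc, cx_inc_mul' Sum.inl _ _ (by simp)] at h1
      exact h1.symm
    · exact i2.val x p q
  have cxG : ∀ F : Matrix κ ι ℚ, cx (Matrix.fromBlocks 0 0 F 0 : Matrix (ι ⊕ κ) (ι ⊕ κ) ℚ) =
      Matrix.fromBlocks 0 0 (cx F) 0 := by
    intro F
    ext p q
    rcases p with p | p <;> rcases q with q | q <;> simp [cx]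
  have hmem : x.val W ∈ inter G G' := by
    change cx G * (x.val W : Matrix (ι ⊕ κ) (ι ⊕ κ) ℂ) =
      (x.val W : Matrix (ι ⊕ κ) (ι ⊕ κ) ℂ) * cx G'
    rw [hxW, hG, hG', cxG, cxG, Matrix.fromBlocks_multiply, Matrix.fromBlocks_multiply]
    simp [hF]
  have hsub := hc _ (inter_rat G G') (inter_heap G G') hmem
  have hone : G = G' := by
    have h1 : (1 : GL (ι ⊕ κ) ℂ) ∈ inter G G' := hsub (Subgroup.one_mem _)
    have h2 : cx G * ((1 : GL (ι ⊕ κ) ℂ) : Matrix (ι ⊕ κ) (ι ⊕ κ) ℂ) =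
      ((1 : GL (ι ⊕ κ) ℂ) : Matrix (ι ⊕ κ) (ι ⊕ κ) ℂ) * cx G' := h1
    rw [Units.val_one, Matrix.mul_one, Matrix.one_mul] at h2
    exact cx_inj h2
  have hFF : F = F' := by
    ext p q
    exact congrFun (congrFun hone (Sum.inr p)) (Sum.inl q)
  refine ⟨hFF, ?_, ?_⟩
  · intro l
    have h1 := comm_of_exp hn W G l (fun c => by
      have : E hn W l c ∈ inter G G' := hsub (E_mem hn W l c)
      have h2 : cx G * (E hn W l c : Matrix (ι ⊕ κ) (ι ⊕ κ) ℂ) =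
        (E hn W l c : Matrix (ι ⊕ κ) (ι ⊕ κ) ℂ) * cx G' := this
      rwa [← hone] at h2)
    have h2 : W.N l = Matrix.fromBlocks (M.N l) 0 0 (M'.N l) := rfl
    rw [h2, hG, Matrix.fromBlocks_multiply, Matrix.fromBlocks_multiply] at h1
    have h3 := congrArg Matrix.toBlocks₂₁ h1
    simpa using h3
  · intro p q hpq
    exact degree_of_torus W G (fun t => by
      have : D W t ∈ inter G G' := hsub (D_mem W t)
      have h2 : cx G * (D W t : Matrix (ι ⊕ κ) (ι ⊕ κ) ℂ) =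
        (D W t : Matrix (ι ⊕ κ) (ι ⊕ κ) ℂ) * cx G' := this
      rwa [← hone] at h2) (Sum.inr p) (Sum.inl q) hpq

end Pool.Agent.H56P
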