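import Mathlib
import Pool.Agent.H56P.Eqv

/-!
# From full faithfulness to the linear independence of the periods
-/

set_option autoImplicit false
set_option linter.unusedSectionVars false

namespace Pool.Agent.H56P

variable {Λ : Type} {n : Λ → ℕ} {ι κ : Type} [Fintype ι] [DecidableEq ι] [Fintype κ] [DecidableEq κ]

/-- the object of rank one and degree `d` -/
def pur (n : Λ → ℕ) (d : ℤ) : Mot n Unit where
  deg _ := d
  N _ := 0
  raises l i j h := absurd rfl h
  finite := by simp

theorem gal_of_zero (hn : ∀ l, 1 ≤ n l) (M : Mot n ι) (h0 : ∀ l, M.N l = 0) {g : GL ι ℂ}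
    (hg : g ∈ gal M) : ∃ t : ℂˣ, g = D M t := by
  refine gal_induction hn M (p := fun g => ∃ t : ℂˣ, g = D M t) ?_ ?_ ?_ ?_ ?_ hg
  · intro l c
    refine ⟨1, ?_⟩
    rw [D_one]
    exact Units.ext (expN_of_zero M l c (h0 l))
  · intro t
    exact ⟨t, rfl⟩
  · exact ⟨1, (D_one M).symm⟩
  · rintro g h _ _ ⟨t, rfl⟩ ⟨u, rfl⟩
    exact ⟨t * u, (D_mul M t u).symm⟩
  · rintro g _ ⟨t, rfl⟩
    exact ⟨t⁻¹, (D_inv M t).symm⟩

theorem val_pur (hn : ∀ l, 1 ≤ n l) (x : Point n) (d : ℕ) :
    (x.val (pur n d) : Matrix Unit Unit ℂ) () () = tau x ^ d := by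
  have i1 := incl_inl (tate n) (pur n (d : ℤ))
  have i2 := incl_inr (tate n) (pur n (d : ℤ))
  obtain ⟨t, ht⟩ := gal_of_zero hn ((tate n).sum (pur n (d : ℤ))) (by
    intro l
    change Matrix.fromBlocks (0 : Matrix Unit Unit ℚ) 0 0 0 = 0
    rw [Matrix.fromBlocks_zero]) (x.mem _)
  have h1 := i1.val x () ()
  have h2 := i2.val x () ()
  rw [ht, D_val, torus, Matrix.diagonal_apply_eq] at h1 h2
  have h3 : ((t ^ (1 : ℤ) : ℂˣ) : ℂ) = tau x := h1
  have h4 : ((t ^ (d : ℤ) : ℂˣ) : ℂ) = (x.val (pur n d) : Matrix Unit Unit ℂ) () () := h2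
  rw [← h4, ← h3, zpow_one, zpow_natCast, Units.val_pow_eq_pow_val]

/-- the extension with the class `r` -/
noncomputable def cls (n : Λ → ℕ) (d : ℕ) (r : Λ →₀ ℚ) (hr : ∀ l ∈ r.support, n l = d) :
    Mot n Bool where
  deg i := if i then d else 0
  N l := fun i j => if i = true ∧ j = false then r l else 0
  raises l i j h := by
    by_cases h1 : i = true ∧ j = false
    · obtain ⟨rfl, rfl⟩ := h1
      have h2 : r l ≠ 0 := by simpa using h
      simp [hr l (Finsupp.mem_support_iff.2 h2)]
    · simp [h1] at h
  finite := by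
    refine r.support.finite_toSet.subset fun l h => ?_
    by_contra h1
    apply h
    have h2 : r l = 0 := by
      by_contra h3
      exact h1 (Finsupp.mem_support_iff.2 h3)
    ext i j
    simp [h2]

open Classical in
/-- the universal extension given by finitely many generators -/
noncomputable def unv (n : Λ → ℕ) (L : Finset Λ) : Mot n (Option L) where
  deg i := match i with
    | none => 0
    | some l => n l
  N l' := fun i j => match i, j with
    | some l, none => if l' = l then 1 else 0
    | _, _ => 0
  raises l' i j h := by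
    rcases i with _ | l <;> rcases j with _ | l'' <;> simp at h ⊢
    rw [h]
  finite := by
    refine L.finite_toSet.subset fun l h => ?_
    by_contra h1
    apply h
    ext i j
    rcases i with _ | l' <;> rcases j with _ | l'' <;> simp
    rintro rfl
    exact h1 l'.2

open Classical in
theorem unv_val (x : Point n) (L : Finset Λ) (l : L) :
    (x.val (unv n L) : Matrix (Option L) (Option L) ℂ) (some l) none = per x l := by
  let F : Matrix Bool (Option L) ℚ := fun b p => match b, p with
    | false, none => 1
    | true, some l' => if l' = l then 1 else 0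
    | _, _ => 0
  have hF : IsMor (unv n L) (ext n l) F := by
    constructor
    · intro l'
      ext b p
      rw [Matrix.mul_apply, Matrix.mul_apply, Fintype.sum_bool, Fintype.sum_option]
      rcases b with _ | _ <;> rcases p with _ | p <;> simp [F, unv, ext]
      rw [Finset.sum_eq_single l]
      · simp
      · intro b _ hb
        simp [hb]
      · intro h
        exact absurd (Finset.mem_attach _ _) h
    · intro b p h
      rcases b with _ | _ <;> rcases p with _ | p <;> simp [F] at h ⊢ <;> simp [unv, ext, h]
  have h1 := congrFun (congrFun (x.nat _ _ F hF) true) none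
  rw [Matrix.mul_apply, Matrix.mul_apply, Fintype.sum_bool, Fintype.sum_option] at h1
  have a1 : cx F true none = 0 := by rw [cx_apply]; simp [F]
  have a2 : ∀ l' : L, cx F true (some l') = if l' = l then 1 else 0 := by
    intro l'
    rw [cx_apply]
    by_cases h : l' = l <;> simp [F, h]
  have a3 : cx F false none = 1 := by rw [cx_apply]; simp [F]
  rw [a1, a3] at h1
  simp only [a2] at h1
  rw [Finset.sum_eq_single l (by intro b _ hb; rw [if_neg hb, zero_mul]) (by
    intro h; exact absurd (Finset.mem_univ _) h), if_pos rfl] at h1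
  rw [zero_mul, zero_add, one_mul, mul_zero, zero_add, mul_one] at h1
  exact h1

theorem cls_val (x : Point n) (d : ℕ) (r : Λ →₀ ℚ) (hr : ∀ l ∈ r.support, n l = d) :
    (x.val (cls n d r hr) : Matrix Bool Bool ℂ) true false =
      r.sum fun l a => (a : ℂ) * per x l := by
  classical
  set L := r.support with hL
  let F : Matrix Bool (Option L) ℚ := fun b p => match b, p with
    | false, none => 1
    | true, some l' => r l'
    | _, _ => 0
  have hF : IsMor (unv n L) (cls n d r hr) F := by
    constructor
    · intro l'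
      ext b p
      rw [Matrix.mul_apply, Matrix.mul_apply, Fintype.sum_bool, Fintype.sum_option]
      rcases b with _ | _ <;> rcases p with _ | p <;> simp [F, unv, cls]
      by_cases hl : l' ∈ L
      · rw [Finset.sum_eq_single (⟨l', hl⟩ : L)]
        · simp
        · intro b _ hb
          have : l' ≠ b := fun h => hb (Subtype.ext h.symm)
          simp [this]
        · intro h
          exact absurd (Finset.mem_univ _) h
      · have h0 : r l' = 0 := by
          by_contra h3
          exact hl (Finsupp.mem_support_iff.2 h3)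
        rw [h0]
        refine Finset.sum_eq_zero fun b _ => ?_
        have : l' ≠ b := fun h => hl (h ▸ b.2)
        simp [this]
    · intro b p h
      rcases b with _ | _ <;> rcases p with _ | p <;> simp [F] at h ⊢ <;> simp [unv, cls]
      exact (hr p p.2).symm
  have h1 := congrFun (congrFun (x.nat _ _ F hF) true) none
  rw [Matrix.mul_apply, Matrix.mul_apply, Fintype.sum_bool, Fintype.sum_option] at h1
  have a1 : cx F true none = 0 := by rw [cx_apply]; simp [F]
  have a2 : ∀ l' : L, cx F true (some l') = (r l' : ℂ) := fun _ => rfl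
  have a3 : cx F false none = 1 := by rw [cx_apply]; simp [F]
  rw [a1, a3] at h1
  simp only [a2, unv_val] at h1
  rw [zero_mul, zero_add, mul_zero, zero_add, mul_one] at h1
  rw [Finsupp.sum, ← Finset.sum_coe_sort]
  exact h1.symm

theorem cls_row (hn : ∀ l, 1 ≤ n l) (x : Point n) (d : ℕ) (r : Λ →₀ ℚ)
    (hr : ∀ l ∈ r.support, n l = d) :
    (x.val (cls n d r hr) : Matrix Bool Bool ℂ) false false = 1 ∧
    (x.val (cls n d r hr) : Matrix Bool Bool ℂ) false true = 0 ∧
    (x.val (cls n d r hr) : Matrix Bool Bool ℂ) true true = tau x ^ d := by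
  classical
  have h0 := val_pur hn x 0
  rw [pow_zero] at h0
  let F : Matrix Unit Bool ℚ := fun _ b => if b then 0 else 1
  have hF : IsMor (cls n d r hr) (pur n ((0 : ℕ) : ℤ)) F := by
    constructor
    · intro l
      ext i j
      rw [Matrix.mul_apply, Matrix.mul_apply, Fintype.sum_bool]
      rcases j with _ | _ <;> simp [F, cls, pur]
    · intro i j h
      rcases j with _ | _
      · simp [cls, pur]
      · simp [F] at h
  have h1 := congrFun (congrFun (x.nat _ _ F hF) ()) false
  have h2 := congrFun (congrFun (x.nat _ _ F hF) ()) true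
  rw [Matrix.mul_apply, Matrix.mul_apply, Fintype.sum_bool] at h1 h2
  have a1 : cx F () false = 1 := by rw [cx_apply]; simp [F]
  have a2 : cx F () true = 0 := by rw [cx_apply]; simp [F]
  rw [a1, a2] at h1 h2
  rw [zero_mul, zero_add, one_mul, Finset.univ_unique, Finset.sum_singleton] at h1 h2
  have a3 : cx F (default : Unit) false = 1 := a1
  have a4 : cx F (default : Unit) true = 0 := a2
  rw [a3, mul_one] at h1
  rw [a4, mul_zero] at h2
  have h1 : (x.val (cls n d r hr) : Matrix Bool Bool ℂ) false false = 1 := h1.trans h0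
  have i1 : Incl (pur n (d : ℤ)) (cls n d r hr) (fun _ => true) := by
    constructor
    · intro a b _
      rfl
    · intro _
      simp [cls, pur]
    · intro l _ _
      simp [cls, pur]
    · intro l p _ _
      simp [cls]
  exact ⟨h1, h2, (i1.val x () ()).trans (val_pur hn x d)⟩

/-- `(d) → Ind` -/
theorem ind_of_full (hn : ∀ l, 1 ≤ n l) (x : Point n) (S : Set Λ)
    (hd : ∀ (d : ℕ) (r : Λ →₀ ℚ) (hr : ∀ l ∈ r.support, n l = d), (∀ l ∈ r.support, l ∈ S) →
      r ≠ 0 → ∀ F F' : Matrix Bool Unit ℚ,
      cx F * (x.val (pur n ((0 : ℕ) : ℤ)) : Matrix Unit Unit ℂ) =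
        (x.val (cls n d r hr) : Matrix Bool Bool ℂ) * cx F' →
      F = F' ∧ IsMor (pur n ((0 : ℕ) : ℤ)) (cls n d r hr) F) : Ind x S := by
  classical
  rintro d r hr ⟨p, q, hpq⟩
  by_contra hr0
  have hrd : ∀ l ∈ r.support, n l = d := fun l hl => (hr l hl).2
  obtain ⟨e1, e2, e3⟩ := cls_row hn x d r hrd
  have e4 := cls_val x d r hrd
  rw [hpq] at e4
  have h0 := val_pur hn x 0
  rw [pow_zero] at h0
  let F : Matrix Bool Unit ℚ := fun b _ => if b then p else 1
  let F' : Matrix Bool Unit ℚ := fun b _ => if b then -q else 1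
  obtain ⟨hFF, hmor⟩ := hd d r hrd (fun l hl => (hr l hl).1) hr0 F F' (by
      ext b u
      rw [Matrix.mul_apply, Matrix.mul_apply, Fintype.sum_bool]
      rw [Finset.univ_unique, Finset.sum_singleton]
      have b0 : (x.val (pur n ((0 : ℕ) : ℤ)) : Matrix Unit Unit ℂ) (default : Unit) u = 1 := h0
      rw [b0, mul_one]
      have a1 : cx F false (default : Unit) = 1 := by rw [cx_apply]; simp [F]
      have a2 : cx F true (default : Unit) = p := by rw [cx_apply]; simp [F]
      have a3 : cx F' false u = 1 := by rw [cx_apply]; simp [F']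
      have a4 : cx F' true u = -q := by rw [cx_apply]; simp [F']
      rw [a3, a4]
      rcases b with _ | _
      · rw [e1, e2, a1]
        ring
      · rw [e3, e4, a2]
        ring)
  apply hr0
  ext l
  have h1 := congrFun (congrFun (hmor.comm l) true) ()
  rw [Matrix.mul_apply, Matrix.mul_apply, Fintype.sum_bool] at h1
  simp [F, cls, pur] at h1
  rw [Finsupp.coe_zero, Pi.zero_apply, ← h1]

end Pool.Agent.H56P
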