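import Mathlib
import Pool.Agent.H340R2.LW

/-!
# Logarithms of primes, and real multiples of odd powers of `1 / (2 π i)`
-/

set_option autoImplicit false

namespace Pool.Agent.H56P

open Finset

/-- integer relations between logarithms of distinct primes are trivial -/
theorem log_prime_indep (s : Finset Nat.Primes) (c : Nat.Primes → ℤ)
    (h1 : ∑ i ∈ s, (c i : ℝ) * Real.log (i : ℕ) = 0) (j : Nat.Primes) (hj : j ∈ s) :
    c j = 0 := by
  classical
  have hP : ∀ i : Nat.Primes, ((i : ℕ)).Prime := fun i => i.2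
  have h3 : ∑ i ∈ s, (((c i).toNat : ℕ) : ℝ) * Real.log (i : ℕ) =
      ∑ i ∈ s, (((-c i).toNat : ℕ) : ℝ) * Real.log (i : ℕ) := by
    rw [← sub_eq_zero, ← Finset.sum_sub_distrib, ← h1]
    apply Finset.sum_congr rfl
    intro i _
    rw [← sub_mul]
    congr 1
    have : ((c i).toNat : ℤ) - ((-c i).toNat : ℤ) = c i := by omega
    exact_mod_cast this
  have hpos : ∀ i : Nat.Primes, (0 : ℝ) < (i : ℕ) := fun i => by exact_mod_cast (hP i).pos
  have h4 : ∀ e : Nat.Primes → ℕ, ∑ i ∈ s, (e i : ℝ) * Real.log (i : ℕ) =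
      Real.log ((∏ i ∈ s, (i : ℕ) ^ e i : ℕ) : ℝ) := by
    intro e
    push_cast
    rw [Real.log_prod (fun i _ => (pow_pos (hpos i) _).ne')]
    apply Finset.sum_congr rfl
    intro i _
    rw [Real.log_pow]
  rw [h4, h4] at h3
  have hpp : ∀ e : Nat.Primes → ℕ, 0 < ∏ i ∈ s, (i : ℕ) ^ e i := fun e =>
    Finset.prod_pos (fun i _ => pow_pos (hP i).pos _)
  have h5 : ∏ i ∈ s, (i : ℕ) ^ (c i).toNat = ∏ i ∈ s, (i : ℕ) ^ (-c i).toNat := by
    have := Real.log_injOn_pos (Set.mem_Ioi.2 (by exact_mod_cast hpp _))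
      (Set.mem_Ioi.2 (by exact_mod_cast hpp _)) h3
    exact_mod_cast this
  have h6 : ∀ e : Nat.Primes → ℕ, (∏ i ∈ s, (i : ℕ) ^ e i).factorization (j : ℕ) = e j := by
    intro e
    rw [Nat.factorization_prod (fun i _ => (pow_pos (hP i).pos _).ne')]
    rw [Finsupp.finsetSum_apply, Finset.sum_eq_single j]
    · rw [(hP j).factorization_pow]; simp
    · intro i _ hij
      rw [(hP i).factorization_pow, Finsupp.single_apply, if_neg]
      exact fun h => hij (Subtype.ext h)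
    · intro h; exact absurd hj h
  have h7 := congrArg (fun n => n.factorization (j : ℕ)) h5
  simp only [h6] at h7
  omega

/-- `1` and the logarithms of the primes are linearly independent over `ℚ` -/
theorem log_indep (s : Finset Nat.Primes) (c : Nat.Primes → ℚ) (q : ℚ)
    (h : ∑ i ∈ s, (c i : ℝ) * Real.log (i : ℕ) = q) (j : Nat.Primes) (hj : j ∈ s) : c j = 0 := by
  classical
  set D : ℕ := ∏ i ∈ s, (c i).den with hD
  have hD0 : D ≠ 0 := Finset.prod_ne_zero_iff.2 fun i _ => (c i).den_nz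
  have hm : ∀ i ∈ s, ∃ m : ℤ, (m : ℚ) = D * c i := by
    intro i hi
    obtain ⟨k, hk⟩ := Finset.dvd_prod_of_mem (fun i => (c i).den) hi
    refine ⟨k * (c i).num, ?_⟩
    rw [hD, hk]
    push_cast
    have := Rat.den_mul_eq_num (c i)
    linear_combination (-(k : ℚ)) * this
  choose! m hm using hm
  have h1 : ∑ i ∈ s, (m i : ℝ) * Real.log (i : ℕ) = D * q := by
    rw [← h, Finset.mul_sum]
    refine Finset.sum_congr rfl fun i hi => ?_
    have := congrArg (fun x : ℚ => (x : ℝ)) (hm i hi)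
    push_cast at this
    rw [this, mul_assoc]
  have h2 : Real.exp (D * q) = ((∏ i ∈ s, ((i : ℕ) : ℚ) ^ m i : ℚ) : ℝ) := by
    rw [← h1, Real.exp_sum]
    push_cast
    refine Finset.prod_congr rfl fun i _ => ?_
    have hpos : (0 : ℝ) < (i : ℕ) := by exact_mod_cast i.2.pos
    rw [mul_comm, Real.exp_mul, Real.exp_log hpos, Real.rpow_intCast]
  have h3 : (D * q : ℚ) = 0 := by
    by_contra h4
    have h5 := Pool.Agent.H340R2.LW.transcendental_cexp ((D * q : ℚ) : ℂ)
      (isAlgebraic_algebraMap (D * q : ℚ)) (by exact_mod_cast h4)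
    apply h5
    have h6 : Complex.exp ((D * q : ℚ) : ℂ) = ((∏ i ∈ s, ((i : ℕ) : ℚ) ^ m i : ℚ) : ℂ) := by
      have h7 := congrArg (fun x : ℝ => (x : ℂ)) h2
      rw [Complex.ofReal_exp] at h7
      push_cast at h7 ⊢
      exact h7
    rw [h6]
    exact isAlgebraic_algebraMap (R := ℚ) (A := ℂ) (∏ i ∈ s, ((i : ℕ) : ℚ) ^ m i : ℚ)
  have h4 : ∑ i ∈ s, (m i : ℝ) * Real.log (i : ℕ) = 0 := by
    rw [h1]
    exact_mod_cast h3
  have h5 := log_prime_indep s m h4 j hj
  have h6 := hm j hj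
  rw [h5, Int.cast_zero] at h6
  have hD0' : (D : ℚ) ≠ 0 := by exact_mod_cast hD0
  exact (mul_eq_zero.1 h6.symm).resolve_left hD0'

/-- a real multiple of an odd power of `q / (2 π i)` is rational only if it is zero -/
theorem real_mul (q : ℚ) (hq : q ≠ 0) (τ : ℂ) (hτ : τ = q / (2 * Real.pi * Complex.I)) (m : ℕ)
    (z : ℝ) (R : ℚ) (h : (z : ℂ) * τ ^ (2 * m + 1) = R) : z = 0 := by
  set y : ℝ := q / (2 * Real.pi) with hy
  have hy0 : y ≠ 0 := by
    rw [hy]
    have : (q : ℝ) ≠ 0 := by exact_mod_cast hq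
    exact div_ne_zero this (by positivity)
  have h1 : τ = -(y : ℂ) * Complex.I := by
    rw [hτ, hy]
    push_cast
    have h2 : (2 * (Real.pi : ℂ)) ≠ 0 := by
      have := Real.pi_ne_zero
      have h3 : (Real.pi : ℂ) ≠ 0 := by exact_mod_cast this
      exact mul_ne_zero two_ne_zero h3
    have hI := Complex.I_ne_zero
    have hII := Complex.I_mul_I
    field_simp
    linear_combination Complex.I_sq
  have h2 : τ ^ (2 * m + 1) = (((-y ^ 2) ^ m * (-y) : ℝ) : ℂ) * Complex.I := by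
    rw [pow_succ, pow_mul, h1, mul_pow, Complex.I_sq]
    push_cast
    ring
  rw [h2] at h
  have h3 := congrArg Complex.im h
  have h4 : ((z : ℂ) * ((((-y ^ 2) ^ m * (-y) : ℝ) : ℂ) * Complex.I)).im =
      z * ((-y ^ 2) ^ m * (-y)) := by
    rw [← mul_assoc, ← Complex.ofReal_mul, Complex.im_ofReal_mul, Complex.I_im, mul_one]
  have h5 : ((R : ℂ)).im = 0 := by
    have : (R : ℂ) = ((R : ℝ) : ℂ) := by push_cast; rfl
    rw [this, Complex.ofReal_im]
  rw [h4, h5] at h3
  refine (mul_eq_zero.1 h3).resolve_right ?_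
  refine mul_ne_zero (pow_ne_zero _ (neg_ne_zero.2 (pow_ne_zero _ hy0))) (neg_ne_zero.2 hy0)

theorem tau_transc (q : ℚ) (hq : q ≠ 0) (τ : ℂ) (hτ : τ = q / (2 * Real.pi * Complex.I)) :
    Transcendental ℚ τ := by
  intro h
  apply Pool.Agent.H340R2.LW.transcendental_pi_complex
  have hq' : (q : ℂ) ≠ 0 := by exact_mod_cast hq
  have hI := Complex.I_ne_zero
  have hpi : (Real.pi : ℂ) ≠ 0 := by exact_mod_cast Real.pi_ne_zero
  have h1 : (Real.pi : ℂ) = (algebraMap ℚ ℂ (q / 2)) * (τ⁻¹ * Complex.I⁻¹) := by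
    rw [hτ]
    have : (algebraMap ℚ ℂ (q / 2)) = (q : ℂ) / 2 := by
      rw [eq_ratCast]
      push_cast
      rfl
    rw [this]
    field_simp
  rw [h1]
  exact (isAlgebraic_algebraMap _).mul (h.inv.mul Pool.Agent.H340R2.LW.isAlgebraic_I.inv)

end Pool.Agent.H56P
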