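import Mathlib
import Pool.Agent.H56P.Bak

/-!
# Points with given periods exist
-/

set_option autoImplicit false
set_option linter.unusedSectionVars false

namespace Pool.Agent.H56P

variable {Λ : Type} {n : Λ → ℕ} {ι κ : Type} [Fintype ι] [DecidableEq ι] [Fintype κ] [DecidableEq κ]
  [Encodable Λ]

/-- the factor number `k` -/
noncomputable def fac (hn : ∀ l, 1 ≤ n l) (z : Λ → ℂ) (M : Mot n ι) (k : ℕ) : GL ι ℂ :=
  match Encodable.decode₂ Λ k with
  | some l => E hn M l (z l)
  | none => 1

/-- the product of the first `K` factors -/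
noncomputable def prd (hn : ∀ l, 1 ≤ n l) (z : Λ → ℂ) (M : Mot n ι) : ℕ → GL ι ℂ
  | 0 => 1
  | K + 1 => prd hn z M K * fac hn z M K

theorem fac_some (hn : ∀ l, 1 ≤ n l) (z : Λ → ℂ) (M : Mot n ι) (l : Λ) :
    fac hn z M (Encodable.encode l) = E hn M l (z l) := by
  rw [fac, Encodable.encodek₂]

theorem fac_one (hn : ∀ l, 1 ≤ n l) (z : Λ → ℂ) (M : Mot n ι) (k : ℕ)
    (h : ∀ l, M.N l ≠ 0 → Encodable.encode l ≠ k) : fac hn z M k = 1 := by
  rw [fac]
  cases h2 : Encodable.decode₂ Λ k with
  | none => rfl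
  | some l =>
    have h3 : Encodable.encode l = k := Encodable.mem_decode₂.1 h2
    have : M.N l = 0 := by
      by_contra h4
      exact h l h4 h3
    exact Units.ext (expN_of_zero M l _ this)

/-- a bound for the codes of the generators which act -/
noncomputable def cbd (M : Mot n ι) : ℕ :=
  (M.finite.toFinset.sup fun l => Encodable.encode l) + 1

theorem lt_cbd (M : Mot n ι) (l : Λ) (h : M.N l ≠ 0) : Encodable.encode l < cbd M := by
  have h1 : l ∈ M.finite.toFinset := by
    rw [Set.Finite.mem_toFinset]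
    exact h
  have h2 := Finset.le_sup (f := fun l : Λ => Encodable.encode l) h1
  unfold cbd
  omega

theorem prd_const (hn : ∀ l, 1 ≤ n l) (z : Λ → ℂ) (M : Mot n ι) : ∀ j : ℕ,
    prd hn z M (cbd M + j) = prd hn z M (cbd M) := by
  intro j
  induction j with
  | zero => rfl
  | succ j ih =>
    rw [← add_assoc, prd, ih, fac_one, mul_one]
    intro l hl h
    have := lt_cbd M l hl
    omega

theorem prd_ge (hn : ∀ l, 1 ≤ n l) (z : Λ → ℂ) (M : Mot n ι) {K : ℕ} (hK : cbd M ≤ K) :
    prd hn z M K = prd hn z M (cbd M) := by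
  obtain ⟨j, rfl⟩ := Nat.exists_eq_add_of_le hK
  exact prd_const hn z M j

theorem rel_fac (hn : ∀ l, 1 ≤ n l) (z : Λ → ℂ) {M : Mot n ι} {M' : Mot n κ} {F : Matrix κ ι ℚ}
    (hF : IsMor M M' F) (k : ℕ) : Rel F (fac hn z M k) (fac hn z M' k) := by
  rw [fac, fac]
  cases Encodable.decode₂ Λ k with
  | none => exact Rel.one F
  | some l => exact Rel.E hn hF l _

theorem rel_prd (hn : ∀ l, 1 ≤ n l) (z : Λ → ℂ) {M : Mot n ι} {M' : Mot n κ} {F : Matrix κ ι ℚ}
    (hF : IsMor M M' F) : ∀ K : ℕ, Rel F (prd hn z M K) (prd hn z M' K) := by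
  intro K
  induction K with
  | zero => exact Rel.one F
  | succ K ih => exact ih.mul (rel_fac hn z hF K)

theorem prd_mem (hn : ∀ l, 1 ≤ n l) (z : Λ → ℂ) (M : Mot n ι) : ∀ K : ℕ,
    prd hn z M K ∈ gal M := by
  intro K
  induction K with
  | zero => exact Subgroup.one_mem _
  | succ K ih =>
    refine Subgroup.mul_mem _ ih ?_
    rw [fac]
    cases Encodable.decode₂ Λ K with
    | none => exact Subgroup.one_mem _
    | some l => exact E_mem hn M l _

/-- the point with the periods `τ` and `z` -/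
noncomputable def pnt (hn : ∀ l, 1 ≤ n l) (z : Λ → ℂ) (τ : ℂˣ) : Point n where
  val M := prd hn z M (cbd M) * D M τ
  mem M := Subgroup.mul_mem _ (prd_mem hn z M _) (D_mem M τ)
  nat M M' F hF := by
    have h1 := rel_prd hn z hF (max (cbd M) (cbd M'))
    rw [prd_ge hn z M (le_max_left _ _), prd_ge hn z M' (le_max_right _ _)] at h1
    exact h1.mul (Rel.D hF τ)

theorem pnt_tau (hn : ∀ l, 1 ≤ n l) (z : Λ → ℂ) (τ : ℂˣ) : tau (pnt hn z τ) = τ := by
  have h1 : ∀ K, prd hn z (tate n) K = 1 := by
    intro K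
    induction K with
    | zero => rfl
    | succ K ih =>
      rw [prd, ih, fac_one, mul_one]
      intro l hl
      exact absurd rfl hl
  have h2 : (pnt hn z τ).val (tate n) = D (tate n) τ := by
    change prd hn z (tate n) _ * _ = _
    rw [h1, one_mul]
  rw [tau, h2, D_val, torus, Matrix.diagonal_apply_eq]
  change ((τ ^ (1 : ℤ) : ℂˣ) : ℂ) = τ
  rw [zpow_one]

theorem E_ext (hn : ∀ l, 1 ≤ n l) (l : Λ) (c : ℂ) :
    (E hn (ext n l) l c : Matrix Bool Bool ℂ) true false = c := by
  classical
  have h0 : (c • cx ((ext n l).N l)) ^ 2 = 0 := by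
    ext i j
    rw [sq, Matrix.mul_apply, Fintype.sum_bool, Matrix.smul_apply, Matrix.smul_apply,
      Matrix.smul_apply, Matrix.smul_apply, cx_apply, cx_apply, cx_apply, cx_apply]
    rcases i with _ | _ <;> rcases j with _ | _ <;> simp [ext]
  rw [E_val, expN, IsNilpotent.exp_eq_sum h0, Finset.sum_range_succ, Finset.sum_range_one]
  rw [pow_zero, pow_one, Matrix.add_apply, Matrix.smul_apply, Matrix.smul_apply,
    Matrix.smul_apply, cx_apply]
  simp [ext]

theorem pnt_per (hn : ∀ l, 1 ≤ n l) (z : Λ → ℂ) (τ : ℂˣ) (l : Λ) : per (pnt hn z τ) l = z l := by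
  classical
  have h1 : ∀ K, prd hn z (ext n l) K =
      if Encodable.encode l < K then E hn (ext n l) l (z l) else 1 := by
    intro K
    induction K with
    | zero => rw [if_neg (by omega)]; rfl
    | succ K ih =>
      rw [prd, ih]
      by_cases h : Encodable.encode l = K
      · rw [if_neg (by omega), if_pos (by omega), ← h, fac_some, one_mul]
      · rw [fac_one hn z _ K, mul_one]
        · by_cases h2 : Encodable.encode l < K
          · rw [if_pos h2, if_pos (by omega)]
          · rw [if_neg h2, if_neg (by omega)]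
        · intro l' hl' h2
          apply hl'
          have h3 : l' ≠ l := fun h4 => h (h4 ▸ h2)
          ext i j
          simp [ext, h3]
  have h2 : (ext n l).N l ≠ 0 := by
    intro h
    have := congrFun (congrFun h true) false
    simp [ext] at this
  have h3 : (pnt hn z τ).val (ext n l) = E hn (ext n l) l (z l) * D (ext n l) τ := by
    change prd hn z (ext n l) _ * _ = _
    rw [h1, if_pos (lt_cbd _ l h2)]
  rw [per, h3, Units.val_mul, D_val, torus, Matrix.mul_diagonal, E_ext]
  simp [ext]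

end Pool.Agent.H56P
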