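import Mathlib
import Pool.Agent.H56P.Eqv

/-!
# The closure of a generic point is a torsor
-/

set_option autoImplicit false
set_option linter.unusedSectionVars false

namespace Pool.Agent.H56P

variable {Λ : Type} {n : Λ → ℕ} {ι κ : Type} [Fintype ι] [DecidableEq ι] [Fintype κ] [DecidableEq κ]

/-- the value of a complex polynomial in the entries -/
noncomputable def evc (g : GL ι ℂ) (q : MvPolynomial (ι × ι) ℂ) : ℂ :=
  MvPolynomial.eval (fun ij : ι × ι => (g : Matrix ι ι ℂ) ij.1 ij.2) q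

/-- complex polynomials that vanish on the group vanish on the closure -/
theorem evc_zero (Γ : Set (GL ι ℂ)) (hΓ : ∀ (s : ℂ ≃+* ℂ), ∀ g ∈ Γ, aut s g ∈ Γ) (a : GL ι ℂ)
    (ha : ∀ p : MvPolynomial (ι × ι) ℚ, (∀ g ∈ Γ, ev g p = 0) → ev a p = 0)
    (q : MvPolynomial (ι × ι) ℂ) (hq : ∀ g ∈ Γ, evc g q = 0) : evc a q = 0 := by
  classical
  set e : GL ι ℂ → q.support → ℂ := fun g m =>
    ∏ ij : ι × ι, (g : Matrix ι ι ℂ) ij.1 ij.2 ^ (m : (ι × ι) →₀ ℕ) ij with he
  have hev : ∀ g : GL ι ℂ, evc g q = ∑ m : q.support, q.coeff m * e g m := by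
    intro g
    rw [evc, MvPolynomial.eval_eq', Finset.sum_coe_sort q.support fun m => q.coeff m *
      ∏ ij : ι × ι, (g : Matrix ι ι ℂ) ij.1 ij.2 ^ m ij]
  rw [hev]
  refine zero_of_rat e Γ ?_ a ?_ _ ?_
  · intro s g hg
    refine ⟨aut s g, hΓ s g hg, fun m => ?_⟩
    rw [he]
    simp only
    rw [map_prod]
    refine Finset.prod_congr rfl fun ij _ => ?_
    rw [map_pow]
    rfl
  · intro u hu
    have h1 : ∀ g : GL ι ℂ, ev g (∑ m : q.support, MvPolynomial.monomial (m : (ι × ι) →₀ ℕ) (u m)) =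
        ∑ m : q.support, (u m : ℂ) * e g m := by
      intro g
      rw [ev, map_sum]
      refine Finset.sum_congr rfl fun m _ => ?_
      rw [MvPolynomial.aeval_monomial, he]
      simp only
      rw [Finsupp.prod_fintype _ _ (fun _ => pow_zero _)]
      rfl
    rw [← h1]
    exact ha _ fun g hg => by rw [h1]; exact hu g hg
  · intro g hg
    rw [← hev]
    exact hq g hg

/-- right translation -/
noncomputable def rtr (b : GL ι ℂ) (p : MvPolynomial (ι × ι) ℚ) : MvPolynomial (ι × ι) ℂ :=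
  MvPolynomial.aeval (fun ij : ι × ι =>
    ∑ k, MvPolynomial.X (ij.1, k) * MvPolynomial.C ((b : Matrix ι ι ℂ) k ij.2)) p

/-- left translation -/
noncomputable def ltr (b : GL ι ℂ) (p : MvPolynomial (ι × ι) ℚ) : MvPolynomial (ι × ι) ℂ :=
  MvPolynomial.aeval (fun ij : ι × ι =>
    ∑ k, MvPolynomial.C ((b : Matrix ι ι ℂ) ij.1 k) * MvPolynomial.X (k, ij.2)) p

/-- evaluation as an algebra homomorphism over the rational numbers -/
noncomputable def evh (g : GL ι ℂ) : MvPolynomial (ι × ι) ℂ →ₐ[ℚ] ℂ :=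
  (MvPolynomial.aeval (R := ℂ) fun ij : ι × ι => (g : Matrix ι ι ℂ) ij.1 ij.2).restrictScalars ℚ

theorem evh_eq (g : GL ι ℂ) (q : MvPolynomial (ι × ι) ℂ) : evh g q = evc g q := by
  have h1 : (MvPolynomial.aeval (R := ℂ) fun ij : ι × ι => (g : Matrix ι ι ℂ) ij.1 ij.2) q =
      MvPolynomial.eval (fun ij : ι × ι => (g : Matrix ι ι ℂ) ij.1 ij.2) q := by
    exact RingHom.congr_fun (MvPolynomial.coe_aeval_eq_eval fun ij : ι × ι =>
      (g : Matrix ι ι ℂ) ij.1 ij.2) q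
  exact h1

theorem evc_rtr (g b : GL ι ℂ) (p : MvPolynomial (ι × ι) ℚ) :
    evc g (rtr b p) = ev (g * b) p := by
  rw [← evh_eq]
  have h1 : (evh g).comp (MvPolynomial.aeval (fun ij : ι × ι =>
      ∑ k, MvPolynomial.X (ij.1, k) * MvPolynomial.C ((b : Matrix ι ι ℂ) k ij.2))) =
      MvPolynomial.aeval (fun ij : ι × ι => ((g * b : GL ι ℂ) : Matrix ι ι ℂ) ij.1 ij.2) := by
    apply MvPolynomial.algHom_ext
    intro ij
    rw [AlgHom.comp_apply, MvPolynomial.aeval_X, MvPolynomial.aeval_X, map_sum, Units.val_mul,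
      Matrix.mul_apply]
    refine Finset.sum_congr rfl fun k _ => ?_
    rw [map_mul, evh_eq, evh_eq, evc, evc, MvPolynomial.eval_X, MvPolynomial.eval_C]
  exact DFunLike.congr_fun h1 p

theorem evc_ltr (g b : GL ι ℂ) (p : MvPolynomial (ι × ι) ℚ) :
    evc g (ltr b p) = ev (b * g) p := by
  rw [← evh_eq]
  have h1 : (evh g).comp (MvPolynomial.aeval (fun ij : ι × ι =>
      ∑ k, MvPolynomial.C ((b : Matrix ι ι ℂ) ij.1 k) * MvPolynomial.X (k, ij.2))) =
      MvPolynomial.aeval (fun ij : ι × ι => ((b * g : GL ι ℂ) : Matrix ι ι ℂ) ij.1 ij.2) := by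
    apply MvPolynomial.algHom_ext
    intro ij
    rw [AlgHom.comp_apply, MvPolynomial.aeval_X, MvPolynomial.aeval_X, map_sum, Units.val_mul,
      Matrix.mul_apply]
    refine Finset.sum_congr rfl fun k _ => ?_
    rw [map_mul, evh_eq, evh_eq, evc, evc, MvPolynomial.eval_X, MvPolynomial.eval_C]
  exact DFunLike.congr_fun h1 p

/-- the generic matrix -/
noncomputable def gen (ι : Type) : Matrix ι ι (MvPolynomial (ι × ι) ℚ) :=
  Matrix.of fun i j => MvPolynomial.X (i, j)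

/-- the polynomial `det ^ D · p (g⁻¹)` -/
noncomputable def ivp (p : MvPolynomial (ι × ι) ℚ) : MvPolynomial (ι × ι) ℚ :=
  ∑ m ∈ p.support, MvPolynomial.C (p.coeff m) *
    (∏ ij : ι × ι, (gen ι).adjugate ij.1 ij.2 ^ m ij) *
    (gen ι).det ^ (p.totalDegree - m.sum fun _ e => e)

theorem ev_det (g : GL ι ℂ) : ev g (gen ι).det = (g : Matrix ι ι ℂ).det := by
  rw [ev]
  have h1 := (MvPolynomial.aeval (R := ℚ) fun ij : ι × ι => (g : Matrix ι ι ℂ) ij.1 ij.2).map_det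
    (gen ι)
  rw [h1]
  congr 1
  ext i j
  simp [gen]

theorem ev_adj (g : GL ι ℂ) (i j : ι) :
    ev g ((gen ι).adjugate i j) = (g : Matrix ι ι ℂ).det * ((g⁻¹ : GL ι ℂ) : Matrix ι ι ℂ) i j := by
  have h1 := (MvPolynomial.aeval (R := ℚ)
    fun ij : ι × ι => (g : Matrix ι ι ℂ) ij.1 ij.2).toRingHom.map_adjugate (gen ι)
  have h2 : (MvPolynomial.aeval (R := ℚ)
    fun ij : ι × ι => (g : Matrix ι ι ℂ) ij.1 ij.2).toRingHom.mapMatrix (gen ι) =
      (g : Matrix ι ι ℂ) := by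
    ext i j
    simp [gen]
  rw [h2] at h1
  have h3 := congrFun (congrFun h1 i) j
  have h4 : ev g ((gen ι).adjugate i j) = (g : Matrix ι ι ℂ).adjugate i j := h3
  rw [h4, Matrix.coe_units_inv, Matrix.inv_def, Matrix.smul_apply, smul_eq_mul]
  have h5 : IsUnit (g : Matrix ι ι ℂ).det := (Matrix.isUnit_iff_isUnit_det _).1 g.isUnit
  rw [← mul_assoc, Ring.mul_inverse_cancel _ h5, one_mul]

theorem ev_ivp (g : GL ι ℂ) (p : MvPolynomial (ι × ι) ℚ) :
    ev g (ivp p) = (g : Matrix ι ι ℂ).det ^ p.totalDegree * ev g⁻¹ p := by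
  have e1 : ev g (ivp p) = ∑ m ∈ p.support, ((p.coeff m : ℚ) : ℂ) *
      (∏ ij : ι × ι, ev g ((gen ι).adjugate ij.1 ij.2) ^ m ij) *
      (ev g (gen ι).det) ^ (p.totalDegree - m.sum fun _ e => e) := by
    unfold ev ivp
    rw [map_sum]
    refine Finset.sum_congr rfl fun m _ => ?_
    rw [map_mul, map_mul, map_prod, map_pow, MvPolynomial.aeval_C]
    simp only [map_pow]
    rfl
  have e2 : ev g⁻¹ p = ∑ m ∈ p.support, ((p.coeff m : ℚ) : ℂ) *
      ∏ ij : ι × ι, ((g⁻¹ : GL ι ℂ) : Matrix ι ι ℂ) ij.1 ij.2 ^ m ij := by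
    rw [ev, MvPolynomial.aeval_eq_eval₂Hom, MvPolynomial.coe_eval₂Hom, MvPolynomial.eval₂_eq']
    rfl
  rw [e1, e2, Finset.mul_sum]
  refine Finset.sum_congr rfl fun m hm => ?_
  simp only [ev_adj, ev_det, mul_pow, Finset.prod_mul_distrib]
  have h3 : m.sum (fun _ e => e) = ∑ ij : ι × ι, m ij := Finsupp.sum_fintype _ _ (fun _ => rfl)
  have h4 : m.sum (fun _ e => e) ≤ p.totalDegree := MvPolynomial.le_totalDegree hm
  rw [Finset.prod_pow_eq_pow_sum, ← h3]
  have h5 : (g : Matrix ι ι ℂ).det ^ p.totalDegree =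
      (g : Matrix ι ι ℂ).det ^ (m.sum fun _ e => e) *
      (g : Matrix ι ι ℂ).det ^ (p.totalDegree - m.sum fun _ e => e) := by
    rw [← pow_add]
    congr 1
    omega
  rw [h5]
  ring

/-- the closure of a point of a group which satisfies only the relations of the group -/
theorem closure_heap (hn : ∀ l, 1 ≤ n l) (M : Mot n ι) {x : GL ι ℂ} (hx : x ∈ gal M)
    (hP : ∀ p : MvPolynomial (ι × ι) ℚ, ev x p = 0 → ∀ g ∈ gal M, ev g p = 0) :
    Heap (closure x) := by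
  set Γ : Set (GL ι ℂ) := (gal M : Set (GL ι ℂ)) with hΓ
  have hs : ∀ (s : ℂ ≃+* ℂ), ∀ g ∈ Γ, aut s g ∈ Γ := fun s g hg => aut_gal hn s M hg
  have hZ : ∀ a ∈ closure x, ∀ p : MvPolynomial (ι × ι) ℚ, (∀ g ∈ Γ, ev g p = 0) → ev a p = 0 :=
    fun a ha p hp => ha p (hp x hx)
  have hmul : ∀ a ∈ closure x, ∀ b ∈ closure x, a * b ∈ closure x := by
    intro a ha b hb p hp
    have h1 : ∀ g ∈ Γ, ev (a * g) p = 0 := by
      intro g hg
      rw [← evc_rtr]
      refine evc_zero Γ hs a (hZ a ha) _ fun h hh => ?_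
      rw [evc_rtr]
      exact hP p hp _ ((gal M).mul_mem hh hg)
    rw [← evc_ltr]
    refine evc_zero Γ hs b (hZ b hb) _ fun h hh => ?_
    rw [evc_ltr]
    exact h1 h hh
  have hinv : ∀ a ∈ closure x, a⁻¹ ∈ closure x := by
    intro a ha p hp
    have h1 : ev x (ivp p) = 0 := by
      rw [ev_ivp, hP p hp _ ((gal M).inv_mem hx), mul_zero]
    have h2 := ha _ h1
    rw [ev_ivp] at h2
    have h5 : IsUnit (a : Matrix ι ι ℂ).det := (Matrix.isUnit_iff_isUnit_det _).1 a.isUnit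
    exact (mul_eq_zero.1 h2).resolve_left (pow_ne_zero _ h5.ne_zero)
  intro a ha b hb c hc
  exact hmul _ (hmul _ ha _ (hinv b hb)) _ hc

theorem closure_rat (x : GL ι ℂ) : RatClosed (closure x) := by
  refine ⟨{p | ev x p = 0}, ?_⟩
  ext g
  rfl

theorem mem_closure (x : GL ι ℂ) : x ∈ closure x := fun _ hp => hp

end Pool.Agent.H56P
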