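import Mathlib
import Pool.Agent.H56P.Nem
import Pool.Agent.H56P.Cls
import Pool.Agent.H56P.Ari
import Pool.Agent.N334.W.Main
import Pool.Agent.Y801.Z5S.Fin

/-!
# Comparison isomorphisms of the mixed Tate motives over `ℚ`, and the properties of their torsors
-/

set_option autoImplicit false

namespace Pool.Agent.H56P

/-- the generators of the Lie algebra: the primes and the odd numbers `2 k + 3` -/
abbrev Generator : Type := Nat.Primes ⊕ ℕ

/-- the degree of the generators -/
def degree : Generator → ℕ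
  | .inl _ => 1
  | .inr k => 2 * k + 3

/-- the value `ζ(s)` -/
noncomputable def zeta (s : ℕ) : ℝ := ∑' m : ℕ, 1 / ((m : ℝ) + 1) ^ s

/-- comparison isomorphisms -/
structure Comparison where
  /-- the isomorphisms, relative to a rational isomorphism of the fibre functors -/
  x : Point degree
  tate : ∃ q : ℚ, q ≠ 0 ∧ tau x = q / (2 * Real.pi * Complex.I)
  odd : ∀ k : ℕ, ∃ a b : ℚ, a ≠ 0 ∧
    per x (.inr k) = a * zeta (2 * k + 3) * tau x ^ (2 * k + 3) + b
  prime : ∀ p : Nat.Primes, ∃ a b : ℚ, a ≠ 0 ∧ per x (.inl p) = a * Real.log p * tau x + b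

/-- only the generators in `S` act, and the degrees lie in an interval of length `D` -/
def InClass {ι : Type} (S : Set Generator) (D : ℕ∞) (M : Mot degree ι) : Prop :=
  (∀ l, M.N l ≠ 0 → l ∈ S) ∧ ∀ i j, ((M.deg i - M.deg j).toNat : ℕ∞) ≤ D

/-- the odd zeta values for the generators in `S` of degree at most `D` are irrational -/
def OddIrrational (S : Set Generator) (D : ℕ∞) : Prop :=
  ∀ k : ℕ, .inr k ∈ S → ((2 * k + 3 : ℕ) : ℕ∞) ≤ D → Irrational (zeta (2 * k + 3))

/-- the elements `x⁻¹ s(x)` generate the group of `M` -/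
def Generated (C : Comparison) (S : Set Generator) (D : ℕ∞) : Prop :=
  ∀ (ι : Type) [Fintype ι] [DecidableEq ι] (M : Mot degree ι), InClass S D M →
    conj (C.x.val M) = gal M

/-- a torsor over `ℚ` that contains the comparison isomorphism contains the motivic torsor -/
def NoSmallerTorsor (C : Comparison) (S : Set Generator) (D : ℕ∞) : Prop :=
  ∀ (ι : Type) [Fintype ι] [DecidableEq ι] (M : Mot degree ι), InClass S D M →
    ∀ X : Set (GL ι ℂ), RatClosed X → Heap X → C.x.val M ∈ X → (gal M : Set (GL ι ℂ)) ⊆ X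

/-- the de Rham-Betti realization is fully faithful -/
def FullyFaithful (C : Comparison) (S : Set Generator) (D : ℕ∞) : Prop :=
  ∀ (ι κ : Type) [Fintype ι] [DecidableEq ι] [Fintype κ] [DecidableEq κ] (M : Mot degree ι)
    (M' : Mot degree κ), InClass S D (M.sum M') → ∀ FB FdR : Matrix κ ι ℚ,
    cx FB * (C.x.val M : Matrix ι ι ℂ) = (C.x.val M' : Matrix κ κ ℂ) * cx FdR →
    FB = FdR ∧ IsMor M M' FB

/-- the period map is injective -/
def PeriodConjecture (C : Comparison) (S : Set Generator) (D : ℕ∞) : Prop :=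
  ∀ (ι : Type) [Fintype ι] [DecidableEq ι] (M : Mot degree ι), InClass S D M →
    ∀ p : MvPolynomial (ι × ι) ℚ, ev (C.x.val M) p = 0 → ∀ g ∈ gal M, ev g p = 0

/-- the closures of the comparison isomorphisms are torsors -/
def ClosuresAreTorsors (C : Comparison) (S : Set Generator) (D : ℕ∞) : Prop :=
  ∀ (ι : Type) [Fintype ι] [DecidableEq ι] (M : Mot degree ι), InClass S D M →
    Heap (closure (C.x.val M))

theorem one_le_degree (l : Generator) : 1 ≤ degree l := by
  rcases l with p | k
  · exact le_rfl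
  · change 1 ≤ 2 * k + 3
    omega

/-- the generators in `S` of degree at most `D` -/
def cut (S : Set Generator) (D : ℕ∞) : Set Generator := {l | l ∈ S ∧ ((degree l : ℕ) : ℕ∞) ≤ D}

theorem tau_tr (C : Comparison) : Transcendental ℚ (tau C.x) := by
  obtain ⟨q, hq, h⟩ := C.tate
  exact tau_transc q hq _ h

theorem mem_cut {ι : Type} [Fintype ι] [DecidableEq ι] {S : Set Generator} {D : ℕ∞}
    {M : Mot degree ι} (hM : InClass S D M) (l : Generator) (hl : M.N l ≠ 0) : l ∈ cut S D := by
  refine ⟨hM.1 l hl, ?_⟩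
  obtain ⟨i, j, hij⟩ : ∃ i j, M.N l i j ≠ 0 := by
    by_contra h
    push Not at h
    exact hl (by ext i j; exact h i j)
  have h1 := M.raises l i j hij
  have h2 := hM.2 i j
  rw [h1, add_sub_cancel_left, Int.toNat_natCast] at h2
  exact h2

theorem ind_of_irr (C : Comparison) (S : Set Generator) (D : ℕ∞) (h : OddIrrational S D) :
    Ind C.x (cut S D) := by
  classical
  obtain ⟨q₀, hq₀, hτ⟩ := C.tate
  rintro d r hr ⟨p, q, hpq⟩
  by_contra hr0
  obtain ⟨l₀, hl₀⟩ := Finsupp.support_nonempty_iff.2 hr0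
  rcases l₀ with p₀ | k
  · -- degree one
    have hd : d = 1 := (hr _ hl₀).2.symm
    subst hd
    have hall : ∀ l ∈ r.support, ∃ p : Nat.Primes, l = Sum.inl p := by
      intro l hl
      rcases l with p | k
      · exact ⟨p, rfl⟩
      · have := (hr _ hl).2
        change 2 * k + 3 = 1 at this
        omega
    choose a b ha hab using C.prime
    obtain ⟨lg, hlg⟩ : ∃ lg : Nat.Primes → ℝ, ∀ i : Nat.Primes, Real.log (i : ℕ) = lg i :=
      ⟨_, fun _ => rfl⟩
    set s : Finset Nat.Primes := r.support.preimage Sum.inl Sum.inl_injective.injOn with hs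
    have hsum : (r.sum fun l c => (c : ℂ) * per C.x l) =
        ∑ i ∈ s, (r (Sum.inl i) : ℂ) * per C.x (Sum.inl i) := by
      rw [Finsupp.sum, hs]
      rw [Finset.sum_preimage Sum.inl r.support Sum.inl_injective.injOn
        (fun l => (r l : ℂ) * per C.x l)]
      intro l hl hn
      obtain ⟨i, rfl⟩ := hall l hl
      exact absurd ⟨i, rfl⟩ hn
    have h1 : (((∑ i ∈ s, ((r (Sum.inl i) * a i : ℚ) : ℝ) * lg i) - (q : ℝ) : ℝ) : ℂ) *
        tau C.x ^ (2 * 0 + 1) = ((p - ∑ i ∈ s, r (Sum.inl i) * b i : ℚ) : ℂ) := by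
      rw [hsum] at hpq
      simp only [hab, hlg] at hpq
      push_cast
      rw [Finset.sum_congr rfl (fun i _ => show (r (Sum.inl i) : ℂ) *
        ((a i : ℂ) * (lg i : ℂ) * tau C.x + (b i : ℂ)) =
        (r (Sum.inl i) : ℂ) * (a i : ℂ) * (lg i : ℂ) * tau C.x +
          (r (Sum.inl i) : ℂ) * (b i : ℂ) by ring), Finset.sum_add_distrib, ← Finset.sum_mul] at hpq
      linear_combination hpq
    have h2 := real_mul q₀ hq₀ _ hτ 0 _ _ h1
    have h3 := log_indep s (fun i => r (Sum.inl i) * a i) q (by simp only [hlg]; linarith) p₀ (by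
      rw [hs, Finset.mem_preimage]
      exact hl₀)
    exact (mul_ne_zero (Finsupp.mem_support_iff.1 hl₀) (ha p₀)) h3
  · -- odd degree at least three
    have hd : d = 2 * k + 3 := (hr _ hl₀).2.symm
    subst hd
    have hall : ∀ l ∈ r.support, l = Sum.inr k := by
      intro l hl
      rcases l with p | k'
      · have := (hr _ hl).2
        change 1 = 2 * k + 3 at this
        omega
      · have := (hr _ hl).2
        change 2 * k' + 3 = 2 * k + 3 at this
        rw [show k' = k by omega]
    obtain ⟨a, b, ha, hab⟩ := C.odd k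
    have hr1 : r = Finsupp.single (Sum.inr k) (r (Sum.inr k)) := by
      ext l
      by_cases hl : l = Sum.inr k
      · rw [hl, Finsupp.single_eq_same]
      · rw [Finsupp.single_eq_of_ne hl]
        by_contra h1
        exact hl (hall l (Finsupp.mem_support_iff.2 h1))
    set ρ := r (Sum.inr k) with hρ
    have hρ0 : ρ ≠ 0 := Finsupp.mem_support_iff.1 hl₀
    rw [hr1, Finsupp.sum_single_index (by simp), hab] at hpq
    have h1 : ((ρ * a * zeta (2 * k + 3) - q : ℝ) : ℂ) * tau C.x ^ (2 * (k + 1) + 1) =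
        ((p - ρ * b : ℚ) : ℂ) := by
      rw [show 2 * (k + 1) + 1 = 2 * k + 3 by ring]
      push_cast
      linear_combination hpq
    have h2 := real_mul q₀ hq₀ _ hτ (k + 1) _ _ h1
    refine h k (hr _ hl₀).1.1 (hr _ hl₀).1.2 ⟨q / (ρ * a), ?_⟩
    have h3 : (ρ : ℝ) ≠ 0 := by exact_mod_cast hρ0
    have h4 : (a : ℝ) ≠ 0 := by exact_mod_cast ha
    push_cast
    field_simp
    linarith

theorem irr_of_ind (C : Comparison) (S : Set Generator) (D : ℕ∞) (h : Ind C.x (cut S D)) :
    OddIrrational S D := by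
  rintro k hk hkD ⟨ρ, hρ⟩
  obtain ⟨a, b, ha, hab⟩ := C.odd k
  have h1 := h (2 * k + 3) (Finsupp.single (Sum.inr k) 1) (by
    intro l hl
    have hl' : l = Sum.inr k := by
      by_contra h2
      rw [Finsupp.mem_support_iff, Finsupp.single_eq_of_ne h2] at hl
      exact hl rfl
    rw [hl']
    exact ⟨⟨hk, hkD⟩, rfl⟩) ⟨b, a * ρ, by
      rw [Finsupp.sum_single_index (by simp), hab, ← hρ]
      push_cast
      ring⟩
  have h2 := DFunLike.congr_fun h1 (Sum.inr k : Generator)
  rw [Finsupp.single_eq_same] at h2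
  exact one_ne_zero h2

theorem generated_of_ind (C : Comparison) (S : Set Generator) (D : ℕ∞)
    (h : Ind C.x (cut S D)) : Generated C S D := by
  intro ι _ _ M hM
  exact le_antisymm (conj_le one_le_degree M (C.x.mem M))
    (gal_le_conj one_le_degree C.x (tau_tr C) _ h M fun l hl => mem_cut hM l hl)

theorem torsor_of_generated (C : Comparison) (S : Set Generator) (D : ℕ∞)
    (h : Generated C S D) : NoSmallerTorsor C S D := by
  intro ι _ _ M hM X hX hX' hx
  exact gal_subset (C.x.mem M) (h ι M hM).ge hX hX' hx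

theorem full_of_torsor (C : Comparison) (S : Set Generator) (D : ℕ∞)
    (h : NoSmallerTorsor C S D) : FullyFaithful C S D := by
  intro ι κ _ _ _ _ M M' hM FB FdR hF
  exact full one_le_degree C.x M M' (fun X hX hX' hx => h _ _ hM X hX hX' hx) FB FdR hF

theorem ind_of_full' (C : Comparison) (S : Set Generator) (D : ℕ∞)
    (h : FullyFaithful C S D) : Ind C.x (cut S D) := by
  refine ind_of_full one_le_degree C.x _ fun d r hr hS hr0 F F' hF => ?_
  obtain ⟨l₀, hl₀⟩ := Finsupp.support_nonempty_iff.2 hr0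
  have hdD : ((d : ℕ) : ℕ∞) ≤ D := by
    rw [← hr l₀ hl₀]
    exact (hS l₀ hl₀).2
  refine h Unit Bool _ _ ⟨?_, ?_⟩ F F' hF
  · intro l hl
    refine (hS l ?_).1
    rw [Finsupp.mem_support_iff]
    intro h1
    apply hl
    ext i j
    rcases i with i | i <;> rcases j with j | j
    · rfl
    · rfl
    · rfl
    · change (cls degree d r hr).N l i j = 0
      simp [cls, h1]
  · intro i j
    refine le_trans ?_ hdD
    rw [Nat.cast_le]
    rcases i with i | i | i <;> rcases j with j | j | j <;>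
      simp [Mot.sum, pur, cls]

theorem tfae (C : Comparison) (S : Set Generator) (D : ℕ∞) :
    List.TFAE [OddIrrational S D, Generated C S D, NoSmallerTorsor C S D,
      FullyFaithful C S D] := by
  tfae_have 1 → 2 := fun h => generated_of_ind C S D (ind_of_irr C S D h)
  tfae_have 2 → 3 := torsor_of_generated C S D
  tfae_have 3 → 4 := full_of_torsor C S D
  tfae_have 4 → 1 := fun h => irr_of_ind C S D (ind_of_full' C S D h)
  tfae_finish

theorem period_iff (C : Comparison) (S : Set Generator) (D : ℕ∞) :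
    PeriodConjecture C S D ↔ OddIrrational S D ∧ ClosuresAreTorsors C S D := by
  constructor
  · intro h
    refine ⟨((tfae C S D).out 2 0).1 ?_, ?_⟩
    · intro ι _ _ M hM X hX _ hx g hg
      obtain ⟨P, rfl⟩ := hX
      intro p hp
      exact h ι M hM p (hx p hp) g hg
    · intro ι _ _ M hM
      exact closure_heap one_le_degree M (C.x.mem M) (h ι M hM)
  · rintro ⟨h1, h2⟩ ι _ _ M hM p hp g hg
    have h0 : NoSmallerTorsor C S D := ((tfae C S D).out 0 2).1 h1
    exact h0 ι M hM _ (closure_rat _) (h2 ι M hM) (mem_closure _) hg p hp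

theorem zeta_odd (s : ℕ) (hs : Odd s) : ∃ j : ℕ, Odd j ∧ s + 2 ≤ j ∧ 5 * j < 18 * s ∧
    Irrational (zeta j) := Pool.Agent.N334.W.windows s hs

theorem zeta_three : Irrational (zeta 3) := by
  obtain ⟨j, hj, h1, h2, h3⟩ := zeta_odd 1 odd_one
  have : j = 3 := by omega
  rwa [this] at h3

theorem zeta_five : Irrational (zeta 5) := by
  obtain ⟨c, hc, h⟩ := Pool.Agent.Y801.Z5S.measure83
  rintro ⟨ρ, hρ⟩
  have h1 := h ρ.num ρ.den ρ.den_pos
  have h2 : (0 : ℝ) < c / (ρ.den : ℝ) ^ 83 := by
    have := ρ.den_pos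
    positivity
  have h3 : Pool.Agent.H337R2.zr 5 = zeta 5 := rfl
  have h4 : ((ρ.num : ℤ) : ℝ) / (ρ.den : ℕ) = (ρ : ℝ) := by
    rw [Rat.cast_def]
  rw [h3, ← hρ, h4, sub_self, abs_zero] at h1
  linarith

theorem irr_six : OddIrrational Set.univ 6 := by
  intro k _ hk
  have h1 : 2 * k + 3 ≤ 6 := by exact_mod_cast hk
  have : k = 0 ∨ k = 1 := by omega
  rcases this with rfl | rfl
  · exact zeta_three
  · exact zeta_five

theorem irr_eight : OddIrrational Set.univ 8 ↔ Irrational (zeta 7) := by
  constructor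
  · intro h
    exact h 2 trivial (by norm_num)
  · intro h k _ hk
    have h1 : 2 * k + 3 ≤ 8 := by exact_mod_cast hk
    have : k = 0 ∨ k = 1 ∨ k = 2 := by omega
    rcases this with rfl | rfl | rfl
    · exact zeta_three
    · exact zeta_five
    · exact h

theorem nonempty_comparison : Nonempty Comparison := by
  have henc : Encodable Generator := Encodable.ofCountable _
  set τ : ℂˣ := Units.mk0 (1 / (2 * Real.pi * Complex.I)) (by
    have hpi : (Real.pi : ℂ) ≠ 0 := by exact_mod_cast Real.pi_ne_zero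
    exact one_div_ne_zero (mul_ne_zero (mul_ne_zero two_ne_zero hpi) Complex.I_ne_zero)) with hτ
  set z : Generator → ℂ := fun l => match l with
    | .inl p => Real.log p * τ
    | .inr k => zeta (2 * k + 3) * (τ : ℂ) ^ (2 * k + 3) with hz
  have h1 := pnt_tau one_le_degree z τ
  refine ⟨⟨pnt one_le_degree z τ, ⟨1, one_ne_zero, ?_⟩, fun k => ⟨1, 0, one_ne_zero, ?_⟩,
    fun p => ⟨1, 0, one_ne_zero, ?_⟩⟩⟩
  · rw [h1, hτ, Units.val_mk0, Rat.cast_one]
  · rw [h1, pnt_per, hz]
    push_cast
    ring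
  · rw [h1, pnt_per, hz]
    push_cast
    ring

/-- there is a large set of generators for which the odd zeta values are irrational -/
theorem exists_generators : ∃ S : Set Generator, (∀ p, .inl p ∈ S) ∧ .inr 0 ∈ S ∧ .inr 1 ∈ S ∧
    (∀ s : ℕ, Odd s → ∃ k : ℕ, .inr k ∈ S ∧ s + 2 ≤ 2 * k + 3 ∧ 5 * (2 * k + 3) < 18 * s) ∧
    OddIrrational S ⊤ := by
  set S : Set Generator := {l | ∀ k : ℕ, l = .inr k → Irrational (zeta (2 * k + 3))} with hS
  have hirr : OddIrrational S ⊤ := fun k hk _ => hk k rfl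
  refine ⟨S, fun p k h => by simp at h, fun k hk => ?_, fun k hk => ?_, fun s hs => ?_, hirr⟩
  · have : k = 0 := by simpa using hk.symm
    subst this
    exact zeta_three
  · have : k = 1 := by simpa using hk.symm
    subst this
    exact zeta_five
  · obtain ⟨j, hj, h1, h2, h3⟩ := zeta_odd s hs
    obtain ⟨m, rfl⟩ := hs
    obtain ⟨i, rfl⟩ := hj
    have hi : 1 ≤ i := by omega
    refine ⟨i - 1, ?_, by omega, by omega⟩
    intro k hk
    have hk' : i - 1 = k := by simpa using hk
    rw [← hk', show 2 * (i - 1) + 3 = 2 * i + 1 by omega]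
    exact h3

end Pool.Agent.H56P
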